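import Pool.Agent.MAL.CertCore

/-! certificate C1 (generated) -/

namespace Pool.Agent.MAL.Cert.C1

open Pool.Agent.MAL.Cert

/-- parities -/
def P : ℕ → Bool := fun i => Nat.beq i 1

/-- the identity -/
def target : List (ℤ × Tr) :=
  [(-12, (.nd (.nd (.nd (.nd (.lf 2) (.lf 1)) (.lf 1)) (.lf 3)) (.lf 1))),
   (-9, (.nd (.nd (.nd (.lf 2) (.lf 1)) (.lf 1)) (.nd (.lf 3) (.lf 1)))),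
   (-9, (.nd (.nd (.lf 2) (.nd (.lf 3) (.lf 1))) (.nd (.lf 1) (.lf 1)))),
   (9, (.nd (.nd (.nd (.lf 3) (.lf 2)) (.nd (.lf 1) (.lf 1))) (.lf 1))),
   (-3, (.nd (.nd (.nd (.nd (.lf 3) (.lf 2)) (.lf 1)) (.lf 1)) (.lf 1))),
   (-3, (.nd (.nd (.lf 2) (.lf 1)) (.nd (.nd (.lf 3) (.lf 1)) (.lf 1)))),
   (3, (.nd (.nd (.lf 2) (.nd (.nd (.lf 3) (.lf 1)) (.lf 1))) (.lf 1))),
   (15, (.nd (.nd (.nd (.nd (.lf 1) (.lf 2)) (.lf 1)) (.lf 3)) (.lf 1))),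
   (9, (.nd (.nd (.nd (.lf 1) (.lf 2)) (.lf 1)) (.nd (.lf 3) (.lf 1)))),
   (9, (.nd (.nd (.lf 1) (.nd (.lf 3) (.lf 2))) (.nd (.lf 1) (.lf 1)))),
   (-9, (.nd (.nd (.nd (.lf 3) (.lf 1)) (.nd (.lf 2) (.lf 1))) (.lf 1))),
   (3, (.nd (.nd (.nd (.nd (.lf 3) (.lf 1)) (.lf 2)) (.lf 1)) (.lf 1))),
   (3, (.nd (.nd (.lf 1) (.lf 2)) (.nd (.nd (.lf 3) (.lf 1)) (.lf 1)))),
   (-3, (.nd (.nd (.lf 1) (.nd (.nd (.lf 3) (.lf 2)) (.lf 1))) (.lf 1))),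
   (-15, (.nd (.nd (.nd (.nd (.lf 1) (.lf 1)) (.lf 2)) (.lf 3)) (.lf 1))),
   (-9, (.nd (.nd (.nd (.lf 1) (.lf 1)) (.lf 2)) (.nd (.lf 3) (.lf 1)))),
   (-9, (.nd (.nd (.lf 1) (.nd (.lf 3) (.lf 1))) (.nd (.lf 2) (.lf 1)))),
   (9, (.nd (.nd (.nd (.lf 3) (.lf 1)) (.nd (.lf 1) (.lf 2))) (.lf 1))),
   (12, (.nd (.nd (.nd (.nd (.lf 3) (.lf 1)) (.lf 1)) (.lf 2)) (.lf 1))),
   (-3, (.nd (.nd (.lf 1) (.lf 1)) (.nd (.nd (.lf 3) (.lf 2)) (.lf 1)))),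
   (3, (.nd (.nd (.lf 1) (.nd (.nd (.lf 3) (.lf 1)) (.lf 2))) (.lf 1))),
   (51, (.nd (.nd (.nd (.nd (.lf 1) (.lf 1)) (.lf 1)) (.lf 3)) (.lf 2))),
   (9, (.nd (.nd (.nd (.lf 1) (.lf 1)) (.lf 1)) (.nd (.lf 3) (.lf 2)))),
   (9, (.nd (.nd (.lf 1) (.nd (.lf 3) (.lf 1))) (.nd (.lf 1) (.lf 2)))),
   (-9, (.nd (.nd (.nd (.lf 3) (.lf 1)) (.nd (.lf 1) (.lf 1))) (.lf 2))),
   (3, (.nd (.nd (.nd (.nd (.lf 3) (.lf 1)) (.lf 1)) (.lf 1)) (.lf 2))),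
   (3, (.nd (.nd (.lf 1) (.lf 1)) (.nd (.nd (.lf 3) (.lf 1)) (.lf 2)))),
   (-3, (.nd (.nd (.lf 1) (.nd (.nd (.lf 3) (.lf 1)) (.lf 1))) (.lf 2))),
   (108, (.nd (.lf 2) (.nd (.nd (.nd (.lf 1) (.lf 1)) (.lf 1)) (.lf 3)))),
   (36, (.nd (.nd (.lf 2) (.nd (.nd (.lf 1) (.lf 1)) (.lf 1))) (.lf 3))),
   (36, (.nd (.nd (.lf 3) (.lf 2)) (.nd (.nd (.lf 1) (.lf 1)) (.lf 1)))),
   (9, (.nd (.nd (.nd (.lf 3) (.lf 1)) (.lf 1)) (.nd (.lf 2) (.lf 1)))),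
   (9, (.nd (.nd (.lf 3) (.nd (.lf 2) (.lf 1))) (.nd (.lf 1) (.lf 1)))),
   (-9, (.nd (.nd (.nd (.lf 2) (.lf 3)) (.nd (.lf 1) (.lf 1))) (.lf 1))),
   (3, (.nd (.nd (.nd (.nd (.lf 2) (.lf 3)) (.lf 1)) (.lf 1)) (.lf 1))),
   (3, (.nd (.nd (.lf 3) (.lf 1)) (.nd (.nd (.lf 2) (.lf 1)) (.lf 1)))),
   (-3, (.nd (.nd (.lf 3) (.nd (.nd (.lf 2) (.lf 1)) (.lf 1))) (.lf 1))),
   (-15, (.nd (.nd (.nd (.nd (.lf 1) (.lf 3)) (.lf 1)) (.lf 2)) (.lf 1))),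
   (-9, (.nd (.nd (.nd (.lf 1) (.lf 3)) (.lf 1)) (.nd (.lf 2) (.lf 1)))),
   (-9, (.nd (.nd (.lf 1) (.nd (.lf 2) (.lf 3))) (.nd (.lf 1) (.lf 1)))),
   (9, (.nd (.nd (.nd (.lf 2) (.lf 1)) (.nd (.lf 3) (.lf 1))) (.lf 1))),
   (-3, (.nd (.nd (.nd (.nd (.lf 2) (.lf 1)) (.lf 3)) (.lf 1)) (.lf 1))),
   (-3, (.nd (.nd (.lf 1) (.lf 3)) (.nd (.nd (.lf 2) (.lf 1)) (.lf 1)))),
   (3, (.nd (.nd (.lf 1) (.nd (.nd (.lf 2) (.lf 3)) (.lf 1))) (.lf 1))),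
   (15, (.nd (.nd (.nd (.nd (.lf 1) (.lf 1)) (.lf 3)) (.lf 2)) (.lf 1))),
   (9, (.nd (.nd (.nd (.lf 1) (.lf 1)) (.lf 3)) (.nd (.lf 2) (.lf 1)))),
   (9, (.nd (.nd (.lf 1) (.nd (.lf 2) (.lf 1))) (.nd (.lf 3) (.lf 1)))),
   (-9, (.nd (.nd (.nd (.lf 2) (.lf 1)) (.nd (.lf 1) (.lf 3))) (.lf 1))),
   (3, (.nd (.nd (.lf 1) (.lf 1)) (.nd (.nd (.lf 2) (.lf 3)) (.lf 1)))),
   (-3, (.nd (.nd (.lf 1) (.nd (.nd (.lf 2) (.lf 1)) (.lf 3))) (.lf 1))),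
   (-51, (.nd (.nd (.nd (.nd (.lf 1) (.lf 1)) (.lf 1)) (.lf 2)) (.lf 3))),
   (-9, (.nd (.nd (.nd (.lf 1) (.lf 1)) (.lf 1)) (.nd (.lf 2) (.lf 3)))),
   (-9, (.nd (.nd (.lf 1) (.nd (.lf 2) (.lf 1))) (.nd (.lf 1) (.lf 3)))),
   (9, (.nd (.nd (.nd (.lf 2) (.lf 1)) (.nd (.lf 1) (.lf 1))) (.lf 3))),
   (-3, (.nd (.nd (.nd (.nd (.lf 2) (.lf 1)) (.lf 1)) (.lf 1)) (.lf 3))),
   (-3, (.nd (.nd (.lf 1) (.lf 1)) (.nd (.nd (.lf 2) (.lf 1)) (.lf 3)))),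
   (3, (.nd (.nd (.lf 1) (.nd (.nd (.lf 2) (.lf 1)) (.lf 1))) (.lf 3))),
   (-108, (.nd (.lf 3) (.nd (.nd (.nd (.lf 1) (.lf 1)) (.lf 1)) (.lf 2)))),
   (-36, (.nd (.nd (.lf 3) (.nd (.nd (.lf 1) (.lf 1)) (.lf 1))) (.lf 2))),
   (-36, (.nd (.nd (.lf 2) (.lf 3)) (.nd (.nd (.lf 1) (.lf 1)) (.lf 1))))]

/-- the certificate -/
def cert : List (ℤ × ℕ) :=
  [(-21, 0xf11132), (-15, 0xf11213), (-27, 0xf11231), (3, 0xf12113), (-9, 0xf12131), (-15, 0xf12311)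
   , (-9, 0xf13112), (15, 0xf13121), (-3, 0xf13211), (-39, 0xf23111), (-6, 0x21113), (12, 0x31121)
   ]

set_option maxRecDepth 100000 in
theorem ok : check P cert 1 target = true := by decide +kernel

end Pool.Agent.MAL.Cert.C1
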