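import Pool.Agent.MAL.CertCore

/-! certificate C2 (generated) -/

namespace Pool.Agent.MAL.Cert.C2

open Pool.Agent.MAL.Cert

/-- parities -/
def P : ℕ → Bool := fun i => Nat.beq i 1

/-- the identity -/
def target : List (ℤ × Tr) :=
  [(108, (.nd (.nd (.nd (.lf 2) (.nd (.lf 3) (.lf 4))) (.lf 1)) (.lf 1))),
   (108, (.nd (.nd (.lf 1) (.lf 1)) (.nd (.lf 2) (.nd (.lf 3) (.lf 4))))),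
   (-108, (.nd (.nd (.lf 1) (.nd (.lf 2) (.nd (.lf 3) (.lf 4)))) (.lf 1))),
   (36, (.nd (.nd (.nd (.nd (.lf 2) (.lf 3)) (.lf 4)) (.lf 1)) (.lf 1))),
   (36, (.nd (.nd (.lf 1) (.lf 1)) (.nd (.nd (.lf 2) (.lf 3)) (.lf 4)))),
   (-36, (.nd (.nd (.lf 1) (.nd (.nd (.lf 2) (.lf 3)) (.lf 4))) (.lf 1))),
   (39, (.nd (.nd (.nd (.nd (.lf 3) (.lf 4)) (.lf 2)) (.lf 1)) (.lf 1))),
   (39, (.nd (.nd (.lf 1) (.lf 1)) (.nd (.nd (.lf 3) (.lf 4)) (.lf 2)))),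
   (-39, (.nd (.nd (.lf 1) (.nd (.nd (.lf 3) (.lf 4)) (.lf 2))) (.lf 1))),
   (39, (.nd (.nd (.nd (.nd (.lf 4) (.lf 2)) (.lf 3)) (.lf 1)) (.lf 1))),
   (39, (.nd (.nd (.lf 1) (.lf 1)) (.nd (.nd (.lf 4) (.lf 2)) (.lf 3)))),
   (-39, (.nd (.nd (.lf 1) (.nd (.nd (.lf 4) (.lf 2)) (.lf 3))) (.lf 1))),
   (-12, (.nd (.nd (.nd (.nd (.lf 3) (.lf 2)) (.lf 1)) (.lf 4)) (.lf 1))),
   (-9, (.nd (.nd (.nd (.lf 3) (.lf 2)) (.lf 1)) (.nd (.lf 4) (.lf 1)))),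
   (-9, (.nd (.nd (.lf 3) (.nd (.lf 4) (.lf 2))) (.nd (.lf 1) (.lf 1)))),
   (9, (.nd (.nd (.nd (.lf 4) (.lf 3)) (.nd (.lf 2) (.lf 1))) (.lf 1))),
   (-3, (.nd (.nd (.nd (.nd (.lf 4) (.lf 3)) (.lf 2)) (.lf 1)) (.lf 1))),
   (33, (.nd (.nd (.lf 3) (.lf 2)) (.nd (.nd (.lf 4) (.lf 1)) (.lf 1)))),
   (3, (.nd (.nd (.lf 3) (.nd (.nd (.lf 4) (.lf 2)) (.lf 1))) (.lf 1))),
   (12, (.nd (.nd (.nd (.nd (.lf 3) (.lf 1)) (.lf 2)) (.lf 4)) (.lf 1))),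
   (9, (.nd (.nd (.nd (.lf 3) (.lf 1)) (.lf 2)) (.nd (.lf 4) (.lf 1)))),
   (9, (.nd (.nd (.lf 3) (.nd (.lf 4) (.lf 1))) (.nd (.lf 2) (.lf 1)))),
   (-9, (.nd (.nd (.nd (.lf 4) (.lf 3)) (.nd (.lf 1) (.lf 2))) (.lf 1))),
   (3, (.nd (.nd (.nd (.nd (.lf 4) (.lf 3)) (.lf 1)) (.lf 2)) (.lf 1))),
   (3, (.nd (.nd (.lf 3) (.lf 1)) (.nd (.nd (.lf 4) (.lf 2)) (.lf 1)))),
   (-3, (.nd (.nd (.lf 3) (.nd (.nd (.lf 4) (.lf 1)) (.lf 2))) (.lf 1))),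
   (-48, (.nd (.nd (.nd (.nd (.lf 3) (.lf 1)) (.lf 1)) (.lf 4)) (.lf 2))),
   (-9, (.nd (.nd (.nd (.lf 3) (.lf 1)) (.lf 1)) (.nd (.lf 4) (.lf 2)))),
   (-9, (.nd (.nd (.lf 3) (.nd (.lf 4) (.lf 1))) (.nd (.lf 1) (.lf 2)))),
   (9, (.nd (.nd (.nd (.lf 4) (.lf 3)) (.nd (.lf 1) (.lf 1))) (.lf 2))),
   (-3, (.nd (.nd (.nd (.nd (.lf 4) (.lf 3)) (.lf 1)) (.lf 1)) (.lf 2))),
   (-3, (.nd (.nd (.lf 3) (.lf 1)) (.nd (.nd (.lf 4) (.lf 1)) (.lf 2)))),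
   (3, (.nd (.nd (.lf 3) (.nd (.nd (.lf 4) (.lf 1)) (.lf 1))) (.lf 2))),
   (15, (.nd (.nd (.nd (.nd (.lf 2) (.lf 3)) (.lf 1)) (.lf 4)) (.lf 1))),
   (9, (.nd (.nd (.nd (.lf 2) (.lf 3)) (.lf 1)) (.nd (.lf 4) (.lf 1)))),
   (9, (.nd (.nd (.lf 2) (.nd (.lf 4) (.lf 3))) (.nd (.lf 1) (.lf 1)))),
   (-9, (.nd (.nd (.nd (.lf 4) (.lf 2)) (.nd (.lf 3) (.lf 1))) (.lf 1))),
   (3, (.nd (.nd (.lf 2) (.lf 3)) (.nd (.nd (.lf 4) (.lf 1)) (.lf 1)))),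
   (-3, (.nd (.nd (.lf 2) (.nd (.nd (.lf 4) (.lf 3)) (.lf 1))) (.lf 1))),
   (-15, (.nd (.nd (.nd (.nd (.lf 2) (.lf 1)) (.lf 3)) (.lf 4)) (.lf 1))),
   (-9, (.nd (.nd (.nd (.lf 2) (.lf 1)) (.lf 3)) (.nd (.lf 4) (.lf 1)))),
   (-9, (.nd (.nd (.lf 2) (.nd (.lf 4) (.lf 1))) (.nd (.lf 3) (.lf 1)))),
   (9, (.nd (.nd (.nd (.lf 4) (.lf 2)) (.nd (.lf 1) (.lf 3))) (.lf 1))),
   (12, (.nd (.nd (.nd (.nd (.lf 4) (.lf 2)) (.lf 1)) (.lf 3)) (.lf 1))),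
   (-3, (.nd (.nd (.lf 2) (.lf 1)) (.nd (.nd (.lf 4) (.lf 3)) (.lf 1)))),
   (3, (.nd (.nd (.lf 2) (.nd (.nd (.lf 4) (.lf 1)) (.lf 3))) (.lf 1))),
   (15, (.nd (.nd (.nd (.nd (.lf 2) (.lf 1)) (.lf 1)) (.lf 4)) (.lf 3))),
   (9, (.nd (.nd (.nd (.lf 2) (.lf 1)) (.lf 1)) (.nd (.lf 4) (.lf 3)))),
   (9, (.nd (.nd (.lf 2) (.nd (.lf 4) (.lf 1))) (.nd (.lf 1) (.lf 3)))),
   (-9, (.nd (.nd (.nd (.lf 4) (.lf 2)) (.nd (.lf 1) (.lf 1))) (.lf 3))),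
   (3, (.nd (.nd (.nd (.nd (.lf 4) (.lf 2)) (.lf 1)) (.lf 1)) (.lf 3))),
   (3, (.nd (.nd (.lf 2) (.lf 1)) (.nd (.nd (.lf 4) (.lf 1)) (.lf 3)))),
   (33, (.nd (.nd (.lf 2) (.nd (.nd (.lf 4) (.lf 1)) (.lf 1))) (.lf 3))),
   (-15, (.nd (.nd (.nd (.nd (.lf 1) (.lf 3)) (.lf 2)) (.lf 4)) (.lf 1))),
   (-9, (.nd (.nd (.nd (.lf 1) (.lf 3)) (.lf 2)) (.nd (.lf 4) (.lf 1)))),
   (-9, (.nd (.nd (.lf 1) (.nd (.lf 4) (.lf 3))) (.nd (.lf 2) (.lf 1)))),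
   (9, (.nd (.nd (.nd (.lf 4) (.lf 1)) (.nd (.lf 3) (.lf 2))) (.lf 1))),
   (-3, (.nd (.nd (.nd (.nd (.lf 4) (.lf 1)) (.lf 3)) (.lf 2)) (.lf 1))),
   (-3, (.nd (.nd (.lf 1) (.lf 3)) (.nd (.nd (.lf 4) (.lf 2)) (.lf 1)))),
   (3, (.nd (.nd (.lf 1) (.nd (.nd (.lf 4) (.lf 3)) (.lf 2))) (.lf 1))),
   (51, (.nd (.nd (.nd (.nd (.lf 1) (.lf 3)) (.lf 1)) (.lf 4)) (.lf 2))),
   (9, (.nd (.nd (.nd (.lf 1) (.lf 3)) (.lf 1)) (.nd (.lf 4) (.lf 2)))),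
   (9, (.nd (.nd (.lf 1) (.nd (.lf 4) (.lf 3))) (.nd (.lf 1) (.lf 2)))),
   (-9, (.nd (.nd (.nd (.lf 4) (.lf 1)) (.nd (.lf 3) (.lf 1))) (.lf 2))),
   (3, (.nd (.nd (.nd (.nd (.lf 4) (.lf 1)) (.lf 3)) (.lf 1)) (.lf 2))),
   (3, (.nd (.nd (.lf 1) (.lf 3)) (.nd (.nd (.lf 4) (.lf 1)) (.lf 2)))),
   (-3, (.nd (.nd (.lf 1) (.nd (.nd (.lf 4) (.lf 3)) (.lf 1))) (.lf 2))),
   (15, (.nd (.nd (.nd (.nd (.lf 1) (.lf 2)) (.lf 3)) (.lf 4)) (.lf 1))),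
   (9, (.nd (.nd (.nd (.lf 1) (.lf 2)) (.lf 3)) (.nd (.lf 4) (.lf 1)))),
   (9, (.nd (.nd (.lf 1) (.nd (.lf 4) (.lf 2))) (.nd (.lf 3) (.lf 1)))),
   (-9, (.nd (.nd (.nd (.lf 4) (.lf 1)) (.nd (.lf 2) (.lf 3))) (.lf 1))),
   (-12, (.nd (.nd (.nd (.nd (.lf 4) (.lf 1)) (.lf 2)) (.lf 3)) (.lf 1))),
   (3, (.nd (.nd (.lf 1) (.lf 2)) (.nd (.nd (.lf 4) (.lf 3)) (.lf 1)))),
   (-15, (.nd (.nd (.nd (.nd (.lf 1) (.lf 2)) (.lf 1)) (.lf 4)) (.lf 3))),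
   (-9, (.nd (.nd (.nd (.lf 1) (.lf 2)) (.lf 1)) (.nd (.lf 4) (.lf 3)))),
   (-9, (.nd (.nd (.lf 1) (.nd (.lf 4) (.lf 2))) (.nd (.lf 1) (.lf 3)))),
   (9, (.nd (.nd (.nd (.lf 4) (.lf 1)) (.nd (.lf 2) (.lf 1))) (.lf 3))),
   (-3, (.nd (.nd (.nd (.nd (.lf 4) (.lf 1)) (.lf 2)) (.lf 1)) (.lf 3))),
   (-3, (.nd (.nd (.lf 1) (.lf 2)) (.nd (.nd (.lf 4) (.lf 1)) (.lf 3)))),
   (3, (.nd (.nd (.lf 1) (.nd (.nd (.lf 4) (.lf 2)) (.lf 1))) (.lf 3))),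
   (-51, (.nd (.nd (.nd (.nd (.lf 1) (.lf 1)) (.lf 3)) (.lf 4)) (.lf 2))),
   (-9, (.nd (.nd (.nd (.lf 1) (.lf 1)) (.lf 3)) (.nd (.lf 4) (.lf 2)))),
   (-9, (.nd (.nd (.lf 1) (.nd (.lf 4) (.lf 1))) (.nd (.lf 3) (.lf 2)))),
   (9, (.nd (.nd (.nd (.lf 4) (.lf 1)) (.nd (.lf 1) (.lf 3))) (.lf 2))),
   (48, (.nd (.nd (.nd (.nd (.lf 4) (.lf 1)) (.lf 1)) (.lf 3)) (.lf 2))),
   (-3, (.nd (.nd (.lf 1) (.lf 1)) (.nd (.nd (.lf 4) (.lf 3)) (.lf 2)))),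
   (3, (.nd (.nd (.lf 1) (.nd (.nd (.lf 4) (.lf 1)) (.lf 3))) (.lf 2))),
   (15, (.nd (.nd (.nd (.nd (.lf 1) (.lf 1)) (.lf 2)) (.lf 4)) (.lf 3))),
   (9, (.nd (.nd (.nd (.lf 1) (.lf 1)) (.lf 2)) (.nd (.lf 4) (.lf 3)))),
   (9, (.nd (.nd (.lf 1) (.nd (.lf 4) (.lf 1))) (.nd (.lf 2) (.lf 3)))),
   (-9, (.nd (.nd (.nd (.lf 4) (.lf 1)) (.nd (.lf 1) (.lf 2))) (.lf 3))),
   (3, (.nd (.nd (.nd (.nd (.lf 4) (.lf 1)) (.lf 1)) (.lf 2)) (.lf 3))),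
   (-3, (.nd (.nd (.lf 1) (.nd (.nd (.lf 4) (.lf 1)) (.lf 2))) (.lf 3))),
   (-108, (.nd (.lf 2) (.nd (.nd (.nd (.lf 3) (.lf 1)) (.lf 1)) (.lf 4)))),
   (-33, (.nd (.nd (.lf 2) (.nd (.nd (.lf 3) (.lf 1)) (.lf 1))) (.lf 4))),
   (-33, (.nd (.nd (.lf 4) (.lf 2)) (.nd (.nd (.lf 3) (.lf 1)) (.lf 1)))),
   (-108, (.nd (.lf 2) (.nd (.nd (.nd (.lf 1) (.lf 1)) (.lf 3)) (.lf 4)))),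
   (-36, (.nd (.nd (.lf 2) (.nd (.nd (.lf 1) (.lf 1)) (.lf 3))) (.lf 4))),
   (-36, (.nd (.nd (.lf 4) (.lf 2)) (.nd (.nd (.lf 1) (.lf 1)) (.lf 3)))),
   (108, (.nd (.lf 2) (.nd (.nd (.nd (.lf 1) (.lf 3)) (.lf 1)) (.lf 4)))),
   (36, (.nd (.nd (.lf 2) (.nd (.nd (.lf 1) (.lf 3)) (.lf 1))) (.lf 4))),
   (36, (.nd (.nd (.lf 4) (.lf 2)) (.nd (.nd (.lf 1) (.lf 3)) (.lf 1)))),
   (9, (.nd (.nd (.nd (.lf 4) (.lf 2)) (.lf 1)) (.nd (.lf 3) (.lf 1)))),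
   (9, (.nd (.nd (.lf 4) (.nd (.lf 3) (.lf 2))) (.nd (.lf 1) (.lf 1)))),
   (-9, (.nd (.nd (.nd (.lf 3) (.lf 4)) (.nd (.lf 2) (.lf 1))) (.lf 1))),
   (-3, (.nd (.nd (.lf 4) (.nd (.nd (.lf 3) (.lf 2)) (.lf 1))) (.lf 1))),
   (-9, (.nd (.nd (.nd (.lf 4) (.lf 1)) (.lf 2)) (.nd (.lf 3) (.lf 1)))),
   (-9, (.nd (.nd (.lf 4) (.nd (.lf 3) (.lf 1))) (.nd (.lf 2) (.lf 1)))),
   (9, (.nd (.nd (.nd (.lf 3) (.lf 4)) (.nd (.lf 1) (.lf 2))) (.lf 1))),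
   (-3, (.nd (.nd (.nd (.nd (.lf 3) (.lf 4)) (.lf 1)) (.lf 2)) (.lf 1))),
   (-3, (.nd (.nd (.lf 4) (.lf 1)) (.nd (.nd (.lf 3) (.lf 2)) (.lf 1)))),
   (3, (.nd (.nd (.lf 4) (.nd (.nd (.lf 3) (.lf 1)) (.lf 2))) (.lf 1))),
   (9, (.nd (.nd (.nd (.lf 4) (.lf 1)) (.lf 1)) (.nd (.lf 3) (.lf 2)))),
   (9, (.nd (.nd (.lf 4) (.nd (.lf 3) (.lf 1))) (.nd (.lf 1) (.lf 2)))),
   (-9, (.nd (.nd (.nd (.lf 3) (.lf 4)) (.nd (.lf 1) (.lf 1))) (.lf 2))),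
   (3, (.nd (.nd (.nd (.nd (.lf 3) (.lf 4)) (.lf 1)) (.lf 1)) (.lf 2))),
   (3, (.nd (.nd (.lf 4) (.lf 1)) (.nd (.nd (.lf 3) (.lf 1)) (.lf 2)))),
   (-3, (.nd (.nd (.lf 4) (.nd (.nd (.lf 3) (.lf 1)) (.lf 1))) (.lf 2))),
   (-15, (.nd (.nd (.nd (.nd (.lf 2) (.lf 4)) (.lf 1)) (.lf 3)) (.lf 1))),
   (-9, (.nd (.nd (.nd (.lf 2) (.lf 4)) (.lf 1)) (.nd (.lf 3) (.lf 1)))),
   (-9, (.nd (.nd (.lf 2) (.nd (.lf 3) (.lf 4))) (.nd (.lf 1) (.lf 1)))),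
   (9, (.nd (.nd (.nd (.lf 3) (.lf 2)) (.nd (.lf 4) (.lf 1))) (.lf 1))),
   (-3, (.nd (.nd (.nd (.nd (.lf 3) (.lf 2)) (.lf 4)) (.lf 1)) (.lf 1))),
   (-3, (.nd (.nd (.lf 2) (.lf 4)) (.nd (.nd (.lf 3) (.lf 1)) (.lf 1)))),
   (3, (.nd (.nd (.lf 2) (.nd (.nd (.lf 3) (.lf 4)) (.lf 1))) (.lf 1))),
   (15, (.nd (.nd (.nd (.nd (.lf 2) (.lf 1)) (.lf 4)) (.lf 3)) (.lf 1))),
   (9, (.nd (.nd (.nd (.lf 2) (.lf 1)) (.lf 4)) (.nd (.lf 3) (.lf 1)))),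
   (9, (.nd (.nd (.lf 2) (.nd (.lf 3) (.lf 1))) (.nd (.lf 4) (.lf 1)))),
   (-9, (.nd (.nd (.nd (.lf 3) (.lf 2)) (.nd (.lf 1) (.lf 4))) (.lf 1))),
   (3, (.nd (.nd (.lf 2) (.lf 1)) (.nd (.nd (.lf 3) (.lf 4)) (.lf 1)))),
   (-3, (.nd (.nd (.lf 2) (.nd (.nd (.lf 3) (.lf 1)) (.lf 4))) (.lf 1))),
   (-15, (.nd (.nd (.nd (.nd (.lf 2) (.lf 1)) (.lf 1)) (.lf 3)) (.lf 4))),
   (-9, (.nd (.nd (.nd (.lf 2) (.lf 1)) (.lf 1)) (.nd (.lf 3) (.lf 4)))),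
   (-9, (.nd (.nd (.lf 2) (.nd (.lf 3) (.lf 1))) (.nd (.lf 1) (.lf 4)))),
   (9, (.nd (.nd (.nd (.lf 3) (.lf 2)) (.nd (.lf 1) (.lf 1))) (.lf 4))),
   (-3, (.nd (.nd (.nd (.nd (.lf 3) (.lf 2)) (.lf 1)) (.lf 1)) (.lf 4))),
   (-3, (.nd (.nd (.lf 2) (.lf 1)) (.nd (.nd (.lf 3) (.lf 1)) (.lf 4)))),
   (15, (.nd (.nd (.nd (.nd (.lf 1) (.lf 4)) (.lf 2)) (.lf 3)) (.lf 1))),
   (9, (.nd (.nd (.nd (.lf 1) (.lf 4)) (.lf 2)) (.nd (.lf 3) (.lf 1)))),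
   (9, (.nd (.nd (.lf 1) (.nd (.lf 3) (.lf 4))) (.nd (.lf 2) (.lf 1)))),
   (-9, (.nd (.nd (.nd (.lf 3) (.lf 1)) (.nd (.lf 4) (.lf 2))) (.lf 1))),
   (3, (.nd (.nd (.nd (.nd (.lf 3) (.lf 1)) (.lf 4)) (.lf 2)) (.lf 1))),
   (3, (.nd (.nd (.lf 1) (.lf 4)) (.nd (.nd (.lf 3) (.lf 2)) (.lf 1)))),
   (-51, (.nd (.nd (.nd (.nd (.lf 1) (.lf 4)) (.lf 1)) (.lf 3)) (.lf 2))),
   (-9, (.nd (.nd (.nd (.lf 1) (.lf 4)) (.lf 1)) (.nd (.lf 3) (.lf 2)))),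
   (-9, (.nd (.nd (.lf 1) (.nd (.lf 3) (.lf 4))) (.nd (.lf 1) (.lf 2)))),
   (9, (.nd (.nd (.nd (.lf 3) (.lf 1)) (.nd (.lf 4) (.lf 1))) (.lf 2))),
   (-3, (.nd (.nd (.nd (.nd (.lf 3) (.lf 1)) (.lf 4)) (.lf 1)) (.lf 2))),
   (-3, (.nd (.nd (.lf 1) (.lf 4)) (.nd (.nd (.lf 3) (.lf 1)) (.lf 2)))),
   (3, (.nd (.nd (.lf 1) (.nd (.nd (.lf 3) (.lf 4)) (.lf 1))) (.lf 2))),
   (-15, (.nd (.nd (.nd (.nd (.lf 1) (.lf 2)) (.lf 4)) (.lf 3)) (.lf 1))),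
   (-9, (.nd (.nd (.nd (.lf 1) (.lf 2)) (.lf 4)) (.nd (.lf 3) (.lf 1)))),
   (-9, (.nd (.nd (.lf 1) (.nd (.lf 3) (.lf 2))) (.nd (.lf 4) (.lf 1)))),
   (9, (.nd (.nd (.nd (.lf 3) (.lf 1)) (.nd (.lf 2) (.lf 4))) (.lf 1))),
   (-3, (.nd (.nd (.lf 1) (.lf 2)) (.nd (.nd (.lf 3) (.lf 4)) (.lf 1)))),
   (3, (.nd (.nd (.lf 1) (.nd (.nd (.lf 3) (.lf 2)) (.lf 4))) (.lf 1))),
   (15, (.nd (.nd (.nd (.nd (.lf 1) (.lf 2)) (.lf 1)) (.lf 3)) (.lf 4))),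
   (9, (.nd (.nd (.nd (.lf 1) (.lf 2)) (.lf 1)) (.nd (.lf 3) (.lf 4)))),
   (9, (.nd (.nd (.lf 1) (.nd (.lf 3) (.lf 2))) (.nd (.lf 1) (.lf 4)))),
   (-9, (.nd (.nd (.nd (.lf 3) (.lf 1)) (.nd (.lf 2) (.lf 1))) (.lf 4))),
   (3, (.nd (.nd (.nd (.nd (.lf 3) (.lf 1)) (.lf 2)) (.lf 1)) (.lf 4))),
   (3, (.nd (.nd (.lf 1) (.lf 2)) (.nd (.nd (.lf 3) (.lf 1)) (.lf 4)))),
   (-3, (.nd (.nd (.lf 1) (.nd (.nd (.lf 3) (.lf 2)) (.lf 1))) (.lf 4))),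
   (51, (.nd (.nd (.nd (.nd (.lf 1) (.lf 1)) (.lf 4)) (.lf 3)) (.lf 2))),
   (9, (.nd (.nd (.nd (.lf 1) (.lf 1)) (.lf 4)) (.nd (.lf 3) (.lf 2)))),
   (9, (.nd (.nd (.lf 1) (.nd (.lf 3) (.lf 1))) (.nd (.lf 4) (.lf 2)))),
   (-9, (.nd (.nd (.nd (.lf 3) (.lf 1)) (.nd (.lf 1) (.lf 4))) (.lf 2))),
   (-3, (.nd (.nd (.lf 1) (.nd (.nd (.lf 3) (.lf 1)) (.lf 4))) (.lf 2))),
   (-15, (.nd (.nd (.nd (.nd (.lf 1) (.lf 1)) (.lf 2)) (.lf 3)) (.lf 4))),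
   (-9, (.nd (.nd (.nd (.lf 1) (.lf 1)) (.lf 2)) (.nd (.lf 3) (.lf 4)))),
   (-9, (.nd (.nd (.lf 1) (.nd (.lf 3) (.lf 1))) (.nd (.lf 2) (.lf 4)))),
   (9, (.nd (.nd (.nd (.lf 3) (.lf 1)) (.nd (.lf 1) (.lf 2))) (.lf 4))),
   (-3, (.nd (.nd (.nd (.nd (.lf 3) (.lf 1)) (.lf 1)) (.lf 2)) (.lf 4))),
   (-3, (.nd (.nd (.lf 1) (.lf 1)) (.nd (.nd (.lf 3) (.lf 2)) (.lf 4)))),
   (3, (.nd (.nd (.lf 1) (.nd (.nd (.lf 3) (.lf 1)) (.lf 2))) (.lf 4))),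
   (108, (.nd (.lf 2) (.nd (.nd (.nd (.lf 4) (.lf 1)) (.lf 1)) (.lf 3)))),
   (108, (.nd (.lf 2) (.nd (.nd (.nd (.lf 1) (.lf 1)) (.lf 4)) (.lf 3)))),
   (36, (.nd (.nd (.lf 2) (.nd (.nd (.lf 1) (.lf 1)) (.lf 4))) (.lf 3))),
   (36, (.nd (.nd (.lf 3) (.lf 2)) (.nd (.nd (.lf 1) (.lf 1)) (.lf 4)))),
   (-108, (.nd (.lf 2) (.nd (.nd (.nd (.lf 1) (.lf 4)) (.lf 1)) (.lf 3)))),
   (-36, (.nd (.nd (.lf 2) (.nd (.nd (.lf 1) (.lf 4)) (.lf 1))) (.lf 3))),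
   (-36, (.nd (.nd (.lf 3) (.lf 2)) (.nd (.nd (.lf 1) (.lf 4)) (.lf 1))))]

/-- the certificate -/
def cert : List (ℤ × ℕ) :=
  [(36, 0xf11234), (15, 0xf11243), (51, 0xf11324), (51, 0xf11342), (-78, 0xf12134), (30, 0xf12143)
   , (30, 0xf12314), (-48, 0xf12341), (-78, 0xf12413), (72, 0xf13124), (126, 0xf13142), (132, 0xf13214)
   , (6, 0xf13241), (60, 0xf13412), (9, 0xf23114), (-15, 0xf23141), (-9, 0xf23411), (-72, 0xf14123)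
   , (-126, 0xf14132), (-132, 0xf14213), (-6, 0xf14231), (-60, 0xf14312), (-9, 0xf24113), (15, 0xf24131)
   , (9, 0xf24311), (-33, 0xf34112), (33, 0xf34121), (-39, 0xf34211), (-78, 0x41231), (-138, 0x41321)
   , (-138, 0x42131), (-60, 0x43121), (6, 0x41132), (-6, 0x43112)]

set_option maxRecDepth 100000 in
theorem ok : check P cert 1 target = true := by decide +kernel

end Pool.Agent.MAL.Cert.C2
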