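import Pool.Agent.MAL.CertCore

/-! certificate C3 (generated) -/

namespace Pool.Agent.MAL.Cert.C3

open Pool.Agent.MAL.Cert

/-- parities -/
def P : ℕ → Bool := fun i => Nat.beq i 1

/-- the identity -/
def target : List (ℤ × Tr) :=
  [(15, (.nd (.nd (.nd (.nd (.lf 1) (.lf 1)) (.lf 1)) (.nd (.lf 2) (.lf 3))) (.lf 1))),
   (9, (.nd (.nd (.nd (.lf 1) (.lf 1)) (.lf 1)) (.nd (.nd (.lf 2) (.lf 3)) (.lf 1)))),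
   (9, (.nd (.nd (.lf 1) (.nd (.nd (.lf 2) (.lf 3)) (.lf 1))) (.nd (.lf 1) (.lf 1)))),
   (-9, (.nd (.nd (.nd (.nd (.lf 2) (.lf 3)) (.lf 1)) (.nd (.lf 1) (.lf 1))) (.lf 1))),
   (3, (.nd (.nd (.nd (.nd (.nd (.lf 2) (.lf 3)) (.lf 1)) (.lf 1)) (.lf 1)) (.lf 1))),
   (3, (.nd (.nd (.lf 1) (.lf 1)) (.nd (.nd (.nd (.lf 2) (.lf 3)) (.lf 1)) (.lf 1)))),
   (-3, (.nd (.nd (.lf 1) (.nd (.nd (.nd (.lf 2) (.lf 3)) (.lf 1)) (.lf 1))) (.lf 1))),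
   (-15, (.nd (.nd (.nd (.nd (.nd (.lf 1) (.lf 1)) (.lf 1)) (.lf 2)) (.lf 1)) (.lf 3))),
   (-9, (.nd (.nd (.nd (.nd (.lf 1) (.lf 1)) (.lf 1)) (.nd (.lf 2) (.lf 1))) (.lf 3))),
   (-9, (.nd (.nd (.nd (.lf 1) (.nd (.lf 2) (.lf 1))) (.nd (.lf 1) (.lf 1))) (.lf 3))),
   (9, (.nd (.nd (.nd (.nd (.lf 2) (.lf 1)) (.nd (.lf 1) (.lf 1))) (.lf 1)) (.lf 3))),
   (-3, (.nd (.nd (.nd (.nd (.nd (.lf 2) (.lf 1)) (.lf 1)) (.lf 1)) (.lf 1)) (.lf 3))),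
   (-3, (.nd (.nd (.nd (.lf 1) (.lf 1)) (.nd (.nd (.lf 2) (.lf 1)) (.lf 1))) (.lf 3))),
   (3, (.nd (.nd (.nd (.lf 1) (.nd (.nd (.lf 2) (.lf 1)) (.lf 1))) (.lf 1)) (.lf 3))),
   (3, (.nd (.nd (.lf 2) (.lf 3)) (.nd (.nd (.nd (.lf 1) (.lf 1)) (.lf 1)) (.lf 1)))),
   (3, (.nd (.nd (.lf 2) (.nd (.nd (.nd (.lf 3) (.lf 1)) (.lf 1)) (.lf 1))) (.lf 1))),
   (-3, (.nd (.nd (.lf 2) (.lf 1)) (.nd (.nd (.nd (.lf 3) (.lf 1)) (.lf 1)) (.lf 1)))),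
   (-3, (.nd (.nd (.lf 2) (.nd (.nd (.nd (.lf 1) (.lf 3)) (.lf 1)) (.lf 1))) (.lf 1))),
   (3, (.nd (.nd (.lf 2) (.lf 1)) (.nd (.nd (.nd (.lf 1) (.lf 3)) (.lf 1)) (.lf 1)))),
   (3, (.nd (.nd (.lf 2) (.nd (.nd (.nd (.lf 1) (.lf 1)) (.lf 3)) (.lf 1))) (.lf 1))),
   (-3, (.nd (.nd (.lf 2) (.lf 1)) (.nd (.nd (.nd (.lf 1) (.lf 1)) (.lf 3)) (.lf 1)))),
   (-3, (.nd (.nd (.lf 2) (.nd (.nd (.nd (.lf 1) (.lf 1)) (.lf 1)) (.lf 3))) (.lf 1))),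
   (3, (.nd (.nd (.lf 2) (.lf 1)) (.nd (.nd (.nd (.lf 1) (.lf 1)) (.lf 1)) (.lf 3)))),
   (3, (.nd (.nd (.lf 2) (.nd (.nd (.nd (.lf 1) (.lf 1)) (.lf 1)) (.lf 1))) (.lf 3)))]

/-- the certificate -/
def cert : List (ℤ × ℕ) :=
  [(-15, 0xf11f1123), (9, 0xf11f1132), (-60, 0xf1f11123), (-54, 0xf1f11213), (-54, 0xf1f11231), (-60, 0xf1f11312)
   , (-18, 0xf121f113), (-18, 0xf1213f11), (24, 0xf12f1113), (6, 0xf12f1131), (12, 0xf1231f11), (-6, 0xf1f12113)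
   , (-18, 0xf1f12131), (-6, 0xf1f12311), (15, 0xf2f11113), (-15, 0xf2f11131), (-15, 0xf2f11311), (48, 0xf1311f12)
   , (30, 0xf131f112), (-30, 0xf1312f11), (12, 0xf131f121), (-30, 0xf13f1112), (30, 0xf1f13112), (-30, 0xf1f13121)
   , (30, 0xf1f13211), (-9, 0xf3f11112), (9, 0xf3f11121), (15, 0xf3f11211), (-21, 0xf2311f11), (9, 0xf231f111)
   , (15, 0xf23f1111), (-12, 0xf1f23111), (-30, 0xf3f12111), (30, 0xf2f13111), (-6, 0xf111231), (-42, 0xf111321)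
   , (-12, 0xf112131), (-42, 0xf113121), (24, 0xf121131), (36, 0xf123111), (-24, 0xf131121), (12, 0xf132111)
   , (-6, 0xf111123), (-6, 0xf112113), (-12, 0x311211), (-36, 0x321111)]

set_option maxRecDepth 100000 in
theorem ok : check P cert 4 target = true := by decide +kernel

end Pool.Agent.MAL.Cert.C3
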