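import Pool.Agent.MAL.CertCore

/-! certificate C4 (generated) -/

namespace Pool.Agent.MAL.Cert.C4

open Pool.Agent.MAL.Cert

/-- parities -/
def P : ℕ → Bool := fun i => Nat.beq i 1

/-- the identity -/
def target : List (ℤ × Tr) :=
  [(87, (.nd (.nd (.nd (.nd (.lf 4) (.lf 1)) (.nd (.lf 1) (.lf 1))) (.lf 3)) (.lf 2))),
   (9, (.nd (.nd (.nd (.lf 4) (.lf 1)) (.nd (.lf 1) (.lf 1))) (.nd (.lf 3) (.lf 2)))),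
   (9, (.nd (.nd (.lf 4) (.nd (.lf 3) (.lf 1))) (.nd (.nd (.lf 1) (.lf 1)) (.lf 2)))),
   (-9, (.nd (.nd (.nd (.lf 3) (.lf 4)) (.nd (.lf 1) (.nd (.lf 1) (.lf 1)))) (.lf 2))),
   (3, (.nd (.nd (.nd (.nd (.lf 3) (.lf 4)) (.lf 1)) (.nd (.lf 1) (.lf 1))) (.lf 2))),
   (3, (.nd (.nd (.lf 4) (.lf 1)) (.nd (.nd (.lf 3) (.nd (.lf 1) (.lf 1))) (.lf 2)))),
   (-3, (.nd (.nd (.lf 4) (.nd (.nd (.lf 3) (.lf 1)) (.nd (.lf 1) (.lf 1)))) (.lf 2))),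
   (-15, (.nd (.nd (.nd (.nd (.lf 4) (.lf 1)) (.lf 2)) (.lf 3)) (.nd (.lf 1) (.lf 1)))),
   (-9, (.nd (.nd (.nd (.lf 4) (.lf 1)) (.lf 2)) (.nd (.lf 3) (.nd (.lf 1) (.lf 1))))),
   (-9, (.nd (.nd (.lf 4) (.nd (.lf 3) (.lf 1))) (.nd (.lf 2) (.nd (.lf 1) (.lf 1))))),
   (9, (.nd (.nd (.nd (.lf 3) (.lf 4)) (.nd (.lf 1) (.lf 2))) (.nd (.lf 1) (.lf 1)))),
   (-3, (.nd (.nd (.nd (.nd (.lf 3) (.lf 4)) (.lf 1)) (.lf 2)) (.nd (.lf 1) (.lf 1)))),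
   (-3, (.nd (.nd (.lf 4) (.lf 1)) (.nd (.nd (.lf 3) (.lf 2)) (.nd (.lf 1) (.lf 1))))),
   (3, (.nd (.nd (.lf 4) (.nd (.nd (.lf 3) (.lf 1)) (.lf 2))) (.nd (.lf 1) (.lf 1)))),
   (-15, (.nd (.nd (.nd (.nd (.lf 4) (.nd (.lf 1) (.lf 1))) (.lf 1)) (.lf 3)) (.lf 2))),
   (-9, (.nd (.nd (.nd (.lf 4) (.nd (.lf 1) (.lf 1))) (.lf 1)) (.nd (.lf 3) (.lf 2)))),
   (-9, (.nd (.nd (.lf 4) (.nd (.lf 3) (.nd (.lf 1) (.lf 1)))) (.nd (.lf 1) (.lf 2)))),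
   (9, (.nd (.nd (.nd (.lf 3) (.lf 4)) (.nd (.nd (.lf 1) (.lf 1)) (.lf 1))) (.lf 2))),
   (-3, (.nd (.nd (.nd (.nd (.lf 3) (.lf 4)) (.nd (.lf 1) (.lf 1))) (.lf 1)) (.lf 2))),
   (-3, (.nd (.nd (.lf 4) (.nd (.lf 1) (.lf 1))) (.nd (.nd (.lf 3) (.lf 1)) (.lf 2)))),
   (3, (.nd (.nd (.lf 4) (.nd (.nd (.lf 3) (.nd (.lf 1) (.lf 1))) (.lf 1))) (.lf 2))),
   (15, (.nd (.nd (.nd (.nd (.lf 4) (.nd (.lf 1) (.lf 1))) (.lf 2)) (.lf 3)) (.lf 1))),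
   (9, (.nd (.nd (.nd (.lf 4) (.nd (.lf 1) (.lf 1))) (.lf 2)) (.nd (.lf 3) (.lf 1)))),
   (9, (.nd (.nd (.lf 4) (.nd (.lf 3) (.nd (.lf 1) (.lf 1)))) (.nd (.lf 2) (.lf 1)))),
   (-9, (.nd (.nd (.nd (.lf 3) (.lf 4)) (.nd (.nd (.lf 1) (.lf 1)) (.lf 2))) (.lf 1))),
   (3, (.nd (.nd (.nd (.nd (.lf 3) (.lf 4)) (.nd (.lf 1) (.lf 1))) (.lf 2)) (.lf 1))),
   (3, (.nd (.nd (.lf 4) (.nd (.lf 1) (.lf 1))) (.nd (.nd (.lf 3) (.lf 2)) (.lf 1)))),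
   (-3, (.nd (.nd (.lf 4) (.nd (.nd (.lf 3) (.nd (.lf 1) (.lf 1))) (.lf 2))) (.lf 1))),
   (15, (.nd (.nd (.nd (.nd (.lf 4) (.lf 2)) (.lf 1)) (.lf 3)) (.nd (.lf 1) (.lf 1)))),
   (9, (.nd (.nd (.nd (.lf 4) (.lf 2)) (.lf 1)) (.nd (.lf 3) (.nd (.lf 1) (.lf 1))))),
   (9, (.nd (.nd (.lf 4) (.nd (.lf 3) (.lf 2))) (.nd (.lf 1) (.nd (.lf 1) (.lf 1))))),
   (-9, (.nd (.nd (.nd (.lf 3) (.lf 4)) (.nd (.lf 2) (.lf 1))) (.nd (.lf 1) (.lf 1)))),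
   (3, (.nd (.nd (.nd (.nd (.lf 3) (.lf 4)) (.lf 2)) (.lf 1)) (.nd (.lf 1) (.lf 1)))),
   (3, (.nd (.nd (.lf 4) (.lf 2)) (.nd (.nd (.lf 3) (.lf 1)) (.nd (.lf 1) (.lf 1))))),
   (-3, (.nd (.nd (.lf 4) (.nd (.nd (.lf 3) (.lf 2)) (.lf 1))) (.nd (.lf 1) (.lf 1)))),
   (-15, (.nd (.nd (.nd (.nd (.lf 4) (.lf 2)) (.nd (.lf 1) (.lf 1))) (.lf 3)) (.lf 1))),
   (-9, (.nd (.nd (.nd (.lf 4) (.lf 2)) (.nd (.lf 1) (.lf 1))) (.nd (.lf 3) (.lf 1)))),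
   (-9, (.nd (.nd (.lf 4) (.nd (.lf 3) (.lf 2))) (.nd (.nd (.lf 1) (.lf 1)) (.lf 1)))),
   (9, (.nd (.nd (.nd (.lf 3) (.lf 4)) (.nd (.lf 2) (.nd (.lf 1) (.lf 1)))) (.lf 1))),
   (-3, (.nd (.nd (.nd (.nd (.lf 3) (.lf 4)) (.lf 2)) (.nd (.lf 1) (.lf 1))) (.lf 1))),
   (-3, (.nd (.nd (.lf 4) (.lf 2)) (.nd (.nd (.lf 3) (.nd (.lf 1) (.lf 1))) (.lf 1)))),
   (3, (.nd (.nd (.lf 4) (.nd (.nd (.lf 3) (.lf 2)) (.nd (.lf 1) (.lf 1)))) (.lf 1))),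
   (-15, (.nd (.nd (.nd (.nd (.lf 1) (.lf 4)) (.nd (.lf 1) (.lf 1))) (.lf 3)) (.lf 2))),
   (-9, (.nd (.nd (.nd (.lf 1) (.lf 4)) (.nd (.lf 1) (.lf 1))) (.nd (.lf 3) (.lf 2)))),
   (-9, (.nd (.nd (.lf 1) (.nd (.lf 3) (.lf 4))) (.nd (.nd (.lf 1) (.lf 1)) (.lf 2)))),
   (9, (.nd (.nd (.nd (.lf 3) (.lf 1)) (.nd (.lf 4) (.nd (.lf 1) (.lf 1)))) (.lf 2))),
   (-3, (.nd (.nd (.nd (.nd (.lf 3) (.lf 1)) (.lf 4)) (.nd (.lf 1) (.lf 1))) (.lf 2))),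
   (-3, (.nd (.nd (.lf 1) (.lf 4)) (.nd (.nd (.lf 3) (.nd (.lf 1) (.lf 1))) (.lf 2)))),
   (3, (.nd (.nd (.lf 1) (.nd (.nd (.lf 3) (.lf 4)) (.nd (.lf 1) (.lf 1)))) (.lf 2))),
   (15, (.nd (.nd (.nd (.nd (.lf 1) (.lf 4)) (.lf 2)) (.lf 3)) (.nd (.lf 1) (.lf 1)))),
   (9, (.nd (.nd (.nd (.lf 1) (.lf 4)) (.lf 2)) (.nd (.lf 3) (.nd (.lf 1) (.lf 1))))),
   (9, (.nd (.nd (.lf 1) (.nd (.lf 3) (.lf 4))) (.nd (.lf 2) (.nd (.lf 1) (.lf 1))))),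
   (-9, (.nd (.nd (.nd (.lf 3) (.lf 1)) (.nd (.lf 4) (.lf 2))) (.nd (.lf 1) (.lf 1)))),
   (3, (.nd (.nd (.nd (.nd (.lf 3) (.lf 1)) (.lf 4)) (.lf 2)) (.nd (.lf 1) (.lf 1)))),
   (3, (.nd (.nd (.lf 1) (.lf 4)) (.nd (.nd (.lf 3) (.lf 2)) (.nd (.lf 1) (.lf 1))))),
   (-3, (.nd (.nd (.lf 1) (.nd (.nd (.lf 3) (.lf 4)) (.lf 2))) (.nd (.lf 1) (.lf 1)))),
   (87, (.nd (.nd (.nd (.nd (.lf 1) (.nd (.lf 1) (.lf 1))) (.lf 4)) (.lf 3)) (.lf 2))),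
   (9, (.nd (.nd (.nd (.lf 1) (.nd (.lf 1) (.lf 1))) (.lf 4)) (.nd (.lf 3) (.lf 2)))),
   (9, (.nd (.nd (.lf 1) (.nd (.lf 3) (.nd (.lf 1) (.lf 1)))) (.nd (.lf 4) (.lf 2)))),
   (-9, (.nd (.nd (.nd (.lf 3) (.lf 1)) (.nd (.nd (.lf 1) (.lf 1)) (.lf 4))) (.lf 2))),
   (3, (.nd (.nd (.nd (.nd (.lf 3) (.lf 1)) (.nd (.lf 1) (.lf 1))) (.lf 4)) (.lf 2))),
   (3, (.nd (.nd (.lf 1) (.nd (.lf 1) (.lf 1))) (.nd (.nd (.lf 3) (.lf 4)) (.lf 2)))),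
   (-3, (.nd (.nd (.lf 1) (.nd (.nd (.lf 3) (.nd (.lf 1) (.lf 1))) (.lf 4))) (.lf 2))),
   (-15, (.nd (.nd (.nd (.nd (.lf 1) (.nd (.lf 1) (.lf 1))) (.lf 2)) (.lf 3)) (.lf 4))),
   (-9, (.nd (.nd (.nd (.lf 1) (.nd (.lf 1) (.lf 1))) (.lf 2)) (.nd (.lf 3) (.lf 4)))),
   (-9, (.nd (.nd (.lf 1) (.nd (.lf 3) (.nd (.lf 1) (.lf 1)))) (.nd (.lf 2) (.lf 4)))),
   (9, (.nd (.nd (.nd (.lf 3) (.lf 1)) (.nd (.nd (.lf 1) (.lf 1)) (.lf 2))) (.lf 4))),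
   (-39, (.nd (.nd (.nd (.nd (.lf 3) (.lf 1)) (.nd (.lf 1) (.lf 1))) (.lf 2)) (.lf 4))),
   (-3, (.nd (.nd (.lf 1) (.nd (.lf 1) (.lf 1))) (.nd (.nd (.lf 3) (.lf 2)) (.lf 4)))),
   (3, (.nd (.nd (.lf 1) (.nd (.nd (.lf 3) (.nd (.lf 1) (.lf 1))) (.lf 2))) (.lf 4))),
   (-15, (.nd (.nd (.nd (.nd (.lf 1) (.lf 2)) (.lf 4)) (.lf 3)) (.nd (.lf 1) (.lf 1)))),
   (-9, (.nd (.nd (.nd (.lf 1) (.lf 2)) (.lf 4)) (.nd (.lf 3) (.nd (.lf 1) (.lf 1))))),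
   (-9, (.nd (.nd (.lf 1) (.nd (.lf 3) (.lf 2))) (.nd (.lf 4) (.nd (.lf 1) (.lf 1))))),
   (9, (.nd (.nd (.nd (.lf 3) (.lf 1)) (.nd (.lf 2) (.lf 4))) (.nd (.lf 1) (.lf 1)))),
   (-3, (.nd (.nd (.nd (.nd (.lf 3) (.lf 1)) (.lf 2)) (.lf 4)) (.nd (.lf 1) (.lf 1)))),
   (-3, (.nd (.nd (.lf 1) (.lf 2)) (.nd (.nd (.lf 3) (.lf 4)) (.nd (.lf 1) (.lf 1))))),
   (3, (.nd (.nd (.lf 1) (.nd (.nd (.lf 3) (.lf 2)) (.lf 4))) (.nd (.lf 1) (.lf 1)))),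
   (15, (.nd (.nd (.nd (.nd (.lf 1) (.lf 2)) (.nd (.lf 1) (.lf 1))) (.lf 3)) (.lf 4))),
   (9, (.nd (.nd (.nd (.lf 1) (.lf 2)) (.nd (.lf 1) (.lf 1))) (.nd (.lf 3) (.lf 4)))),
   (9, (.nd (.nd (.lf 1) (.nd (.lf 3) (.lf 2))) (.nd (.nd (.lf 1) (.lf 1)) (.lf 4)))),
   (-9, (.nd (.nd (.nd (.lf 3) (.lf 1)) (.nd (.lf 2) (.nd (.lf 1) (.lf 1)))) (.lf 4))),
   (3, (.nd (.nd (.nd (.nd (.lf 3) (.lf 1)) (.lf 2)) (.nd (.lf 1) (.lf 1))) (.lf 4))),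
   (3, (.nd (.nd (.lf 1) (.lf 2)) (.nd (.nd (.lf 3) (.nd (.lf 1) (.lf 1))) (.lf 4)))),
   (-3, (.nd (.nd (.lf 1) (.nd (.nd (.lf 3) (.lf 2)) (.nd (.lf 1) (.lf 1)))) (.lf 4))),
   (87, (.nd (.nd (.nd (.nd (.nd (.lf 1) (.lf 1)) (.lf 4)) (.lf 1)) (.lf 3)) (.lf 2))),
   (9, (.nd (.nd (.nd (.nd (.lf 1) (.lf 1)) (.lf 4)) (.lf 1)) (.nd (.lf 3) (.lf 2)))),
   (9, (.nd (.nd (.nd (.lf 1) (.lf 1)) (.nd (.lf 3) (.lf 4))) (.nd (.lf 1) (.lf 2)))),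
   (-9, (.nd (.nd (.nd (.lf 3) (.nd (.lf 1) (.lf 1))) (.nd (.lf 4) (.lf 1))) (.lf 2))),
   (3, (.nd (.nd (.nd (.nd (.lf 3) (.nd (.lf 1) (.lf 1))) (.lf 4)) (.lf 1)) (.lf 2))),
   (3, (.nd (.nd (.nd (.lf 1) (.lf 1)) (.lf 4)) (.nd (.nd (.lf 3) (.lf 1)) (.lf 2)))),
   (-3, (.nd (.nd (.nd (.lf 1) (.lf 1)) (.nd (.nd (.lf 3) (.lf 4)) (.lf 1))) (.lf 2))),
   (-15, (.nd (.nd (.nd (.nd (.nd (.lf 1) (.lf 1)) (.lf 4)) (.lf 2)) (.lf 3)) (.lf 1))),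
   (-9, (.nd (.nd (.nd (.nd (.lf 1) (.lf 1)) (.lf 4)) (.lf 2)) (.nd (.lf 3) (.lf 1)))),
   (-9, (.nd (.nd (.nd (.lf 1) (.lf 1)) (.nd (.lf 3) (.lf 4))) (.nd (.lf 2) (.lf 1)))),
   (9, (.nd (.nd (.nd (.lf 3) (.nd (.lf 1) (.lf 1))) (.nd (.lf 4) (.lf 2))) (.lf 1))),
   (-3, (.nd (.nd (.nd (.nd (.lf 3) (.nd (.lf 1) (.lf 1))) (.lf 4)) (.lf 2)) (.lf 1))),
   (-3, (.nd (.nd (.nd (.lf 1) (.lf 1)) (.lf 4)) (.nd (.nd (.lf 3) (.lf 2)) (.lf 1)))),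
   (3, (.nd (.nd (.nd (.lf 1) (.lf 1)) (.nd (.nd (.lf 3) (.lf 4)) (.lf 2))) (.lf 1))),
   (-15, (.nd (.nd (.nd (.nd (.nd (.lf 1) (.lf 1)) (.lf 1)) (.lf 4)) (.lf 3)) (.lf 2))),
   (-9, (.nd (.nd (.nd (.nd (.lf 1) (.lf 1)) (.lf 1)) (.lf 4)) (.nd (.lf 3) (.lf 2)))),
   (-9, (.nd (.nd (.nd (.lf 1) (.lf 1)) (.nd (.lf 3) (.lf 1))) (.nd (.lf 4) (.lf 2)))),
   (9, (.nd (.nd (.nd (.lf 3) (.nd (.lf 1) (.lf 1))) (.nd (.lf 1) (.lf 4))) (.lf 2))),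
   (-3, (.nd (.nd (.nd (.nd (.lf 3) (.nd (.lf 1) (.lf 1))) (.lf 1)) (.lf 4)) (.lf 2))),
   (-3, (.nd (.nd (.nd (.lf 1) (.lf 1)) (.lf 1)) (.nd (.nd (.lf 3) (.lf 4)) (.lf 2)))),
   (3, (.nd (.nd (.nd (.lf 1) (.lf 1)) (.nd (.nd (.lf 3) (.lf 1)) (.lf 4))) (.lf 2))),
   (15, (.nd (.nd (.nd (.nd (.nd (.lf 1) (.lf 1)) (.lf 1)) (.lf 2)) (.lf 3)) (.lf 4))),
   (9, (.nd (.nd (.nd (.nd (.lf 1) (.lf 1)) (.lf 1)) (.lf 2)) (.nd (.lf 3) (.lf 4)))),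
   (9, (.nd (.nd (.nd (.lf 1) (.lf 1)) (.nd (.lf 3) (.lf 1))) (.nd (.lf 2) (.lf 4)))),
   (-9, (.nd (.nd (.nd (.lf 3) (.nd (.lf 1) (.lf 1))) (.nd (.lf 1) (.lf 2))) (.lf 4))),
   (3, (.nd (.nd (.nd (.nd (.lf 3) (.nd (.lf 1) (.lf 1))) (.lf 1)) (.lf 2)) (.lf 4))),
   (3, (.nd (.nd (.nd (.lf 1) (.lf 1)) (.lf 1)) (.nd (.nd (.lf 3) (.lf 2)) (.lf 4)))),
   (9, (.nd (.nd (.nd (.lf 1) (.lf 1)) (.nd (.nd (.lf 3) (.lf 1)) (.lf 2))) (.lf 4))),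
   (15, (.nd (.nd (.nd (.nd (.nd (.lf 1) (.lf 1)) (.lf 2)) (.lf 4)) (.lf 3)) (.lf 1))),
   (9, (.nd (.nd (.nd (.nd (.lf 1) (.lf 1)) (.lf 2)) (.lf 4)) (.nd (.lf 3) (.lf 1)))),
   (9, (.nd (.nd (.nd (.lf 1) (.lf 1)) (.nd (.lf 3) (.lf 2))) (.nd (.lf 4) (.lf 1)))),
   (-9, (.nd (.nd (.nd (.lf 3) (.nd (.lf 1) (.lf 1))) (.nd (.lf 2) (.lf 4))) (.lf 1))),
   (3, (.nd (.nd (.nd (.nd (.lf 3) (.nd (.lf 1) (.lf 1))) (.lf 2)) (.lf 4)) (.lf 1))),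
   (3, (.nd (.nd (.nd (.lf 1) (.lf 1)) (.lf 2)) (.nd (.nd (.lf 3) (.lf 4)) (.lf 1)))),
   (-3, (.nd (.nd (.nd (.lf 1) (.lf 1)) (.nd (.nd (.lf 3) (.lf 2)) (.lf 4))) (.lf 1))),
   (-15, (.nd (.nd (.nd (.nd (.nd (.lf 1) (.lf 1)) (.lf 2)) (.lf 1)) (.lf 3)) (.lf 4))),
   (-9, (.nd (.nd (.nd (.nd (.lf 1) (.lf 1)) (.lf 2)) (.lf 1)) (.nd (.lf 3) (.lf 4)))),
   (-9, (.nd (.nd (.nd (.lf 1) (.lf 1)) (.nd (.lf 3) (.lf 2))) (.nd (.lf 1) (.lf 4)))),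
   (9, (.nd (.nd (.nd (.lf 3) (.nd (.lf 1) (.lf 1))) (.nd (.lf 2) (.lf 1))) (.lf 4))),
   (-3, (.nd (.nd (.nd (.nd (.lf 3) (.nd (.lf 1) (.lf 1))) (.lf 2)) (.lf 1)) (.lf 4))),
   (-3, (.nd (.nd (.nd (.lf 1) (.lf 1)) (.lf 2)) (.nd (.nd (.lf 3) (.lf 1)) (.lf 4)))),
   (-9, (.nd (.nd (.nd (.lf 1) (.lf 1)) (.nd (.nd (.lf 3) (.lf 2)) (.lf 1))) (.lf 4))),
   (-15, (.nd (.nd (.nd (.nd (.lf 2) (.lf 4)) (.lf 1)) (.lf 3)) (.nd (.lf 1) (.lf 1)))),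
   (-9, (.nd (.nd (.nd (.lf 2) (.lf 4)) (.lf 1)) (.nd (.lf 3) (.nd (.lf 1) (.lf 1))))),
   (-9, (.nd (.nd (.lf 2) (.nd (.lf 3) (.lf 4))) (.nd (.lf 1) (.nd (.lf 1) (.lf 1))))),
   (9, (.nd (.nd (.nd (.lf 3) (.lf 2)) (.nd (.lf 4) (.lf 1))) (.nd (.lf 1) (.lf 1)))),
   (-3, (.nd (.nd (.nd (.nd (.lf 3) (.lf 2)) (.lf 4)) (.lf 1)) (.nd (.lf 1) (.lf 1)))),
   (-3, (.nd (.nd (.lf 2) (.lf 4)) (.nd (.nd (.lf 3) (.lf 1)) (.nd (.lf 1) (.lf 1))))),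
   (3, (.nd (.nd (.lf 2) (.nd (.nd (.lf 3) (.lf 4)) (.lf 1))) (.nd (.lf 1) (.lf 1)))),
   (15, (.nd (.nd (.nd (.nd (.lf 2) (.lf 4)) (.nd (.lf 1) (.lf 1))) (.lf 3)) (.lf 1))),
   (9, (.nd (.nd (.nd (.lf 2) (.lf 4)) (.nd (.lf 1) (.lf 1))) (.nd (.lf 3) (.lf 1)))),
   (9, (.nd (.nd (.lf 2) (.nd (.lf 3) (.lf 4))) (.nd (.nd (.lf 1) (.lf 1)) (.lf 1)))),
   (-9, (.nd (.nd (.nd (.lf 3) (.lf 2)) (.nd (.lf 4) (.nd (.lf 1) (.lf 1)))) (.lf 1))),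
   (3, (.nd (.nd (.nd (.nd (.lf 3) (.lf 2)) (.lf 4)) (.nd (.lf 1) (.lf 1))) (.lf 1))),
   (3, (.nd (.nd (.lf 2) (.lf 4)) (.nd (.nd (.lf 3) (.nd (.lf 1) (.lf 1))) (.lf 1)))),
   (-3, (.nd (.nd (.lf 2) (.nd (.nd (.lf 3) (.lf 4)) (.nd (.lf 1) (.lf 1)))) (.lf 1))),
   (15, (.nd (.nd (.nd (.nd (.lf 2) (.lf 1)) (.lf 4)) (.lf 3)) (.nd (.lf 1) (.lf 1)))),
   (9, (.nd (.nd (.nd (.lf 2) (.lf 1)) (.lf 4)) (.nd (.lf 3) (.nd (.lf 1) (.lf 1))))),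
   (9, (.nd (.nd (.lf 2) (.nd (.lf 3) (.lf 1))) (.nd (.lf 4) (.nd (.lf 1) (.lf 1))))),
   (-9, (.nd (.nd (.nd (.lf 3) (.lf 2)) (.nd (.lf 1) (.lf 4))) (.nd (.lf 1) (.lf 1)))),
   (3, (.nd (.nd (.nd (.nd (.lf 3) (.lf 2)) (.lf 1)) (.lf 4)) (.nd (.lf 1) (.lf 1)))),
   (3, (.nd (.nd (.lf 2) (.lf 1)) (.nd (.nd (.lf 3) (.lf 4)) (.nd (.lf 1) (.lf 1))))),
   (-3, (.nd (.nd (.lf 2) (.nd (.nd (.lf 3) (.lf 1)) (.lf 4))) (.nd (.lf 1) (.lf 1)))),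
   (-15, (.nd (.nd (.nd (.nd (.lf 2) (.lf 1)) (.nd (.lf 1) (.lf 1))) (.lf 3)) (.lf 4))),
   (-9, (.nd (.nd (.nd (.lf 2) (.lf 1)) (.nd (.lf 1) (.lf 1))) (.nd (.lf 3) (.lf 4)))),
   (-9, (.nd (.nd (.lf 2) (.nd (.lf 3) (.lf 1))) (.nd (.nd (.lf 1) (.lf 1)) (.lf 4)))),
   (9, (.nd (.nd (.nd (.lf 3) (.lf 2)) (.nd (.lf 1) (.nd (.lf 1) (.lf 1)))) (.lf 4))),
   (-3, (.nd (.nd (.nd (.nd (.lf 3) (.lf 2)) (.lf 1)) (.nd (.lf 1) (.lf 1))) (.lf 4))),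
   (-3, (.nd (.nd (.lf 2) (.lf 1)) (.nd (.nd (.lf 3) (.nd (.lf 1) (.lf 1))) (.lf 4)))),
   (3, (.nd (.nd (.lf 2) (.nd (.nd (.lf 3) (.lf 1)) (.nd (.lf 1) (.lf 1)))) (.lf 4))),
   (-15, (.nd (.nd (.nd (.nd (.lf 2) (.nd (.lf 1) (.lf 1))) (.lf 4)) (.lf 3)) (.lf 1))),
   (-9, (.nd (.nd (.nd (.lf 2) (.nd (.lf 1) (.lf 1))) (.lf 4)) (.nd (.lf 3) (.lf 1)))),
   (-9, (.nd (.nd (.lf 2) (.nd (.lf 3) (.nd (.lf 1) (.lf 1)))) (.nd (.lf 4) (.lf 1)))),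
   (9, (.nd (.nd (.nd (.lf 3) (.lf 2)) (.nd (.nd (.lf 1) (.lf 1)) (.lf 4))) (.lf 1))),
   (-3, (.nd (.nd (.nd (.nd (.lf 3) (.lf 2)) (.nd (.lf 1) (.lf 1))) (.lf 4)) (.lf 1))),
   (-3, (.nd (.nd (.lf 2) (.nd (.lf 1) (.lf 1))) (.nd (.nd (.lf 3) (.lf 4)) (.lf 1)))),
   (3, (.nd (.nd (.lf 2) (.nd (.nd (.lf 3) (.nd (.lf 1) (.lf 1))) (.lf 4))) (.lf 1))),
   (15, (.nd (.nd (.nd (.nd (.lf 2) (.nd (.lf 1) (.lf 1))) (.lf 1)) (.lf 3)) (.lf 4))),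
   (9, (.nd (.nd (.nd (.lf 2) (.nd (.lf 1) (.lf 1))) (.lf 1)) (.nd (.lf 3) (.lf 4)))),
   (9, (.nd (.nd (.lf 2) (.nd (.lf 3) (.nd (.lf 1) (.lf 1)))) (.nd (.lf 1) (.lf 4)))),
   (135, (.nd (.nd (.nd (.lf 3) (.lf 2)) (.nd (.nd (.lf 1) (.lf 1)) (.lf 1))) (.lf 4))),
   (39, (.nd (.nd (.nd (.nd (.lf 3) (.lf 2)) (.nd (.lf 1) (.lf 1))) (.lf 1)) (.lf 4))),
   (3, (.nd (.nd (.lf 2) (.nd (.lf 1) (.lf 1))) (.nd (.nd (.lf 3) (.lf 1)) (.lf 4)))),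
   (-3, (.nd (.nd (.lf 2) (.nd (.nd (.lf 3) (.nd (.lf 1) (.lf 1))) (.lf 1))) (.lf 4))),
   (216, (.nd (.lf 2) (.nd (.nd (.nd (.lf 4) (.lf 1)) (.nd (.lf 1) (.lf 1))) (.lf 3)))),
   (72, (.nd (.nd (.lf 2) (.nd (.nd (.lf 4) (.lf 1)) (.nd (.lf 1) (.lf 1)))) (.lf 3))),
   (72, (.nd (.nd (.lf 3) (.lf 2)) (.nd (.nd (.lf 4) (.lf 1)) (.nd (.lf 1) (.lf 1))))),
   (216, (.nd (.lf 2) (.nd (.nd (.nd (.lf 1) (.nd (.lf 1) (.lf 1))) (.lf 4)) (.lf 3)))),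
   (72, (.nd (.nd (.lf 2) (.nd (.nd (.lf 1) (.nd (.lf 1) (.lf 1))) (.lf 4))) (.lf 3))),
   (72, (.nd (.nd (.lf 3) (.lf 2)) (.nd (.nd (.lf 1) (.nd (.lf 1) (.lf 1))) (.lf 4)))),
   (216, (.nd (.lf 2) (.nd (.nd (.nd (.nd (.lf 1) (.lf 1)) (.lf 4)) (.lf 1)) (.lf 3)))),
   (60, (.nd (.nd (.lf 2) (.nd (.nd (.nd (.lf 1) (.lf 1)) (.lf 4)) (.lf 1))) (.lf 3))),
   (60, (.nd (.nd (.lf 3) (.lf 2)) (.nd (.nd (.nd (.lf 1) (.lf 1)) (.lf 4)) (.lf 1)))),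
   (-60, (.nd (.nd (.nd (.nd (.nd (.lf 2) (.lf 1)) (.lf 1)) (.lf 3)) (.lf 1)) (.lf 4))),
   (-36, (.nd (.nd (.nd (.nd (.lf 2) (.lf 1)) (.lf 1)) (.nd (.lf 3) (.lf 1))) (.lf 4))),
   (-36, (.nd (.nd (.nd (.lf 2) (.nd (.lf 3) (.lf 1))) (.nd (.lf 1) (.lf 1))) (.lf 4))),
   (-12, (.nd (.nd (.nd (.nd (.nd (.lf 3) (.lf 2)) (.lf 1)) (.lf 1)) (.lf 1)) (.lf 4))),
   (-12, (.nd (.nd (.nd (.lf 2) (.lf 1)) (.nd (.nd (.lf 3) (.lf 1)) (.lf 1))) (.lf 4))),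
   (12, (.nd (.nd (.nd (.lf 2) (.nd (.nd (.lf 3) (.lf 1)) (.lf 1))) (.lf 1)) (.lf 4))),
   (60, (.nd (.nd (.nd (.nd (.nd (.lf 1) (.lf 2)) (.lf 1)) (.lf 3)) (.lf 1)) (.lf 4))),
   (36, (.nd (.nd (.nd (.nd (.lf 1) (.lf 2)) (.lf 1)) (.nd (.lf 3) (.lf 1))) (.lf 4))),
   (36, (.nd (.nd (.nd (.lf 1) (.nd (.lf 3) (.lf 2))) (.nd (.lf 1) (.lf 1))) (.lf 4))),
   (-36, (.nd (.nd (.nd (.nd (.lf 3) (.lf 1)) (.nd (.lf 2) (.lf 1))) (.lf 1)) (.lf 4))),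
   (12, (.nd (.nd (.nd (.nd (.nd (.lf 3) (.lf 1)) (.lf 2)) (.lf 1)) (.lf 1)) (.lf 4))),
   (12, (.nd (.nd (.nd (.lf 1) (.lf 2)) (.nd (.nd (.lf 3) (.lf 1)) (.lf 1))) (.lf 4))),
   (-12, (.nd (.nd (.nd (.lf 1) (.nd (.nd (.lf 3) (.lf 2)) (.lf 1))) (.lf 1)) (.lf 4))),
   (-60, (.nd (.nd (.nd (.nd (.nd (.lf 1) (.lf 1)) (.lf 2)) (.lf 3)) (.lf 1)) (.lf 4))),
   (-36, (.nd (.nd (.nd (.nd (.lf 1) (.lf 1)) (.lf 2)) (.nd (.lf 3) (.lf 1))) (.lf 4))),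
   (-36, (.nd (.nd (.nd (.lf 1) (.nd (.lf 3) (.lf 1))) (.nd (.lf 2) (.lf 1))) (.lf 4))),
   (36, (.nd (.nd (.nd (.nd (.lf 3) (.lf 1)) (.nd (.lf 1) (.lf 2))) (.lf 1)) (.lf 4))),
   (-12, (.nd (.nd (.nd (.nd (.nd (.lf 3) (.lf 1)) (.lf 1)) (.lf 2)) (.lf 1)) (.lf 4))),
   (12, (.nd (.nd (.nd (.lf 1) (.nd (.nd (.lf 3) (.lf 1)) (.lf 2))) (.lf 1)) (.lf 4))),
   (204, (.nd (.nd (.nd (.nd (.nd (.lf 1) (.lf 1)) (.lf 1)) (.lf 3)) (.lf 2)) (.lf 4))),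
   (36, (.nd (.nd (.nd (.nd (.lf 1) (.lf 1)) (.lf 1)) (.nd (.lf 3) (.lf 2))) (.lf 4))),
   (36, (.nd (.nd (.nd (.lf 1) (.nd (.lf 3) (.lf 1))) (.nd (.lf 1) (.lf 2))) (.lf 4))),
   (12, (.nd (.nd (.nd (.nd (.nd (.lf 3) (.lf 1)) (.lf 1)) (.lf 1)) (.lf 2)) (.lf 4))),
   (-12, (.nd (.nd (.nd (.lf 1) (.nd (.nd (.lf 3) (.lf 1)) (.lf 1))) (.lf 2)) (.lf 4))),
   (420, (.nd (.nd (.lf 2) (.nd (.nd (.nd (.lf 1) (.lf 1)) (.lf 1)) (.lf 3))) (.lf 4))),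
   (144, (.nd (.nd (.nd (.lf 2) (.nd (.nd (.lf 1) (.lf 1)) (.lf 1))) (.lf 3)) (.lf 4))),
   (-12, (.nd (.nd (.lf 2) (.lf 3)) (.nd (.nd (.nd (.lf 4) (.lf 1)) (.lf 1)) (.lf 1)))),
   (-12, (.nd (.nd (.lf 2) (.nd (.nd (.nd (.lf 3) (.lf 4)) (.lf 1)) (.lf 1))) (.lf 1))),
   (12, (.nd (.nd (.lf 2) (.lf 3)) (.nd (.nd (.nd (.lf 1) (.lf 4)) (.lf 1)) (.lf 1)))),
   (12, (.nd (.nd (.lf 2) (.nd (.nd (.nd (.lf 3) (.lf 1)) (.lf 4)) (.lf 1))) (.lf 1))),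
   (-12, (.nd (.nd (.lf 2) (.lf 3)) (.nd (.nd (.nd (.lf 1) (.lf 1)) (.lf 4)) (.lf 1)))),
   (-12, (.nd (.nd (.lf 2) (.nd (.nd (.nd (.lf 3) (.lf 1)) (.lf 1)) (.lf 4))) (.lf 1))),
   (12, (.nd (.nd (.lf 2) (.lf 3)) (.nd (.nd (.nd (.lf 1) (.lf 1)) (.lf 1)) (.lf 4)))),
   (12, (.nd (.nd (.lf 2) (.nd (.nd (.nd (.lf 3) (.lf 1)) (.lf 1)) (.lf 1))) (.lf 4))),
   (12, (.nd (.nd (.lf 2) (.lf 4)) (.nd (.nd (.nd (.lf 3) (.lf 1)) (.lf 1)) (.lf 1)))),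
   (12, (.nd (.nd (.lf 2) (.nd (.nd (.nd (.lf 4) (.lf 3)) (.lf 1)) (.lf 1))) (.lf 1))),
   (-12, (.nd (.nd (.lf 2) (.lf 4)) (.nd (.nd (.nd (.lf 1) (.lf 3)) (.lf 1)) (.lf 1)))),
   (-12, (.nd (.nd (.lf 2) (.nd (.nd (.nd (.lf 4) (.lf 1)) (.lf 3)) (.lf 1))) (.lf 1))),
   (12, (.nd (.nd (.lf 2) (.lf 4)) (.nd (.nd (.nd (.lf 1) (.lf 1)) (.lf 3)) (.lf 1)))),
   (12, (.nd (.nd (.lf 2) (.nd (.nd (.nd (.lf 4) (.lf 1)) (.lf 1)) (.lf 3))) (.lf 1))),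
   (-12, (.nd (.nd (.lf 2) (.lf 4)) (.nd (.nd (.nd (.lf 1) (.lf 1)) (.lf 1)) (.lf 3)))),
   (-12, (.nd (.nd (.lf 2) (.nd (.nd (.nd (.lf 4) (.lf 1)) (.lf 1)) (.lf 1))) (.lf 3))),
   (-12, (.nd (.nd (.lf 2) (.lf 1)) (.nd (.nd (.nd (.lf 3) (.lf 4)) (.lf 1)) (.lf 1)))),
   (-12, (.nd (.nd (.lf 2) (.nd (.nd (.nd (.lf 1) (.lf 3)) (.lf 4)) (.lf 1))) (.lf 1))),
   (12, (.nd (.nd (.lf 2) (.lf 1)) (.nd (.nd (.nd (.lf 3) (.lf 1)) (.lf 4)) (.lf 1)))),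
   (12, (.nd (.nd (.lf 2) (.nd (.nd (.nd (.lf 1) (.lf 3)) (.lf 1)) (.lf 4))) (.lf 1))),
   (-12, (.nd (.nd (.lf 2) (.lf 1)) (.nd (.nd (.nd (.lf 3) (.lf 1)) (.lf 1)) (.lf 4)))),
   (-12, (.nd (.nd (.lf 2) (.nd (.nd (.nd (.lf 1) (.lf 3)) (.lf 1)) (.lf 1))) (.lf 4))),
   (12, (.nd (.nd (.lf 2) (.lf 1)) (.nd (.nd (.nd (.lf 4) (.lf 3)) (.lf 1)) (.lf 1)))),
   (12, (.nd (.nd (.lf 2) (.nd (.nd (.nd (.lf 1) (.lf 4)) (.lf 3)) (.lf 1))) (.lf 1))),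
   (-12, (.nd (.nd (.lf 2) (.lf 1)) (.nd (.nd (.nd (.lf 4) (.lf 1)) (.lf 3)) (.lf 1)))),
   (-12, (.nd (.nd (.lf 2) (.nd (.nd (.nd (.lf 1) (.lf 4)) (.lf 1)) (.lf 3))) (.lf 1))),
   (12, (.nd (.nd (.lf 2) (.lf 1)) (.nd (.nd (.nd (.lf 4) (.lf 1)) (.lf 1)) (.lf 3)))),
   (12, (.nd (.nd (.lf 2) (.nd (.nd (.nd (.lf 1) (.lf 4)) (.lf 1)) (.lf 1))) (.lf 3))),
   (-12, (.nd (.nd (.lf 2) (.lf 1)) (.nd (.nd (.nd (.lf 1) (.lf 3)) (.lf 4)) (.lf 1)))),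
   (-12, (.nd (.nd (.lf 2) (.nd (.nd (.nd (.lf 1) (.lf 1)) (.lf 3)) (.lf 4))) (.lf 1))),
   (12, (.nd (.nd (.lf 2) (.lf 1)) (.nd (.nd (.nd (.lf 1) (.lf 3)) (.lf 1)) (.lf 4)))),
   (12, (.nd (.nd (.lf 2) (.nd (.nd (.nd (.lf 1) (.lf 1)) (.lf 3)) (.lf 1))) (.lf 4))),
   (12, (.nd (.nd (.lf 2) (.lf 1)) (.nd (.nd (.nd (.lf 1) (.lf 4)) (.lf 3)) (.lf 1)))),
   (12, (.nd (.nd (.lf 2) (.nd (.nd (.nd (.lf 1) (.lf 1)) (.lf 4)) (.lf 3))) (.lf 1))),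
   (-12, (.nd (.nd (.lf 2) (.lf 1)) (.nd (.nd (.nd (.lf 1) (.lf 4)) (.lf 1)) (.lf 3)))),
   (-12, (.nd (.nd (.lf 2) (.lf 1)) (.nd (.nd (.nd (.lf 1) (.lf 1)) (.lf 3)) (.lf 4)))),
   (12, (.nd (.nd (.lf 2) (.lf 1)) (.nd (.nd (.nd (.lf 1) (.lf 1)) (.lf 4)) (.lf 3)))),
   (12, (.nd (.nd (.lf 2) (.nd (.nd (.nd (.lf 1) (.lf 1)) (.lf 1)) (.lf 4))) (.lf 3))),
   (-12, (.nd (.nd (.lf 3) (.lf 2)) (.nd (.nd (.nd (.lf 4) (.lf 1)) (.lf 1)) (.lf 1)))),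
   (-12, (.nd (.nd (.lf 3) (.nd (.nd (.nd (.lf 2) (.lf 4)) (.lf 1)) (.lf 1))) (.lf 1))),
   (12, (.nd (.nd (.lf 3) (.lf 2)) (.nd (.nd (.nd (.lf 1) (.lf 4)) (.lf 1)) (.lf 1)))),
   (12, (.nd (.nd (.lf 3) (.nd (.nd (.nd (.lf 2) (.lf 1)) (.lf 4)) (.lf 1))) (.lf 1))),
   (-12, (.nd (.nd (.lf 3) (.nd (.nd (.nd (.lf 2) (.lf 1)) (.lf 1)) (.lf 4))) (.lf 1))),
   (12, (.nd (.nd (.lf 3) (.lf 2)) (.nd (.nd (.nd (.lf 1) (.lf 1)) (.lf 1)) (.lf 4)))),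
   (12, (.nd (.nd (.lf 3) (.nd (.nd (.nd (.lf 2) (.lf 1)) (.lf 1)) (.lf 1))) (.lf 4))),
   (12, (.nd (.nd (.lf 3) (.lf 4)) (.nd (.nd (.nd (.lf 2) (.lf 1)) (.lf 1)) (.lf 1)))),
   (12, (.nd (.nd (.lf 3) (.nd (.nd (.nd (.lf 4) (.lf 2)) (.lf 1)) (.lf 1))) (.lf 1))),
   (-12, (.nd (.nd (.lf 3) (.lf 4)) (.nd (.nd (.nd (.lf 1) (.lf 2)) (.lf 1)) (.lf 1)))),
   (-12, (.nd (.nd (.lf 3) (.nd (.nd (.nd (.lf 4) (.lf 1)) (.lf 2)) (.lf 1))) (.lf 1))),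
   (12, (.nd (.nd (.lf 3) (.lf 4)) (.nd (.nd (.nd (.lf 1) (.lf 1)) (.lf 2)) (.lf 1)))),
   (12, (.nd (.nd (.lf 3) (.nd (.nd (.nd (.lf 4) (.lf 1)) (.lf 1)) (.lf 2))) (.lf 1))),
   (-12, (.nd (.nd (.lf 3) (.lf 4)) (.nd (.nd (.nd (.lf 1) (.lf 1)) (.lf 1)) (.lf 2)))),
   (-12, (.nd (.nd (.lf 3) (.nd (.nd (.nd (.lf 4) (.lf 1)) (.lf 1)) (.lf 1))) (.lf 2))),
   (-12, (.nd (.nd (.lf 3) (.lf 1)) (.nd (.nd (.nd (.lf 2) (.lf 4)) (.lf 1)) (.lf 1)))),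
   (-12, (.nd (.nd (.lf 3) (.nd (.nd (.nd (.lf 1) (.lf 2)) (.lf 4)) (.lf 1))) (.lf 1))),
   (12, (.nd (.nd (.lf 3) (.lf 1)) (.nd (.nd (.nd (.lf 2) (.lf 1)) (.lf 4)) (.lf 1)))),
   (12, (.nd (.nd (.lf 3) (.nd (.nd (.nd (.lf 1) (.lf 2)) (.lf 1)) (.lf 4))) (.lf 1))),
   (-12, (.nd (.nd (.lf 3) (.lf 1)) (.nd (.nd (.nd (.lf 2) (.lf 1)) (.lf 1)) (.lf 4)))),
   (-12, (.nd (.nd (.lf 3) (.nd (.nd (.nd (.lf 1) (.lf 2)) (.lf 1)) (.lf 1))) (.lf 4))),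
   (12, (.nd (.nd (.lf 3) (.lf 1)) (.nd (.nd (.nd (.lf 4) (.lf 2)) (.lf 1)) (.lf 1)))),
   (12, (.nd (.nd (.lf 3) (.nd (.nd (.nd (.lf 1) (.lf 4)) (.lf 2)) (.lf 1))) (.lf 1))),
   (-12, (.nd (.nd (.lf 3) (.lf 1)) (.nd (.nd (.nd (.lf 4) (.lf 1)) (.lf 2)) (.lf 1)))),
   (-12, (.nd (.nd (.lf 3) (.nd (.nd (.nd (.lf 1) (.lf 4)) (.lf 1)) (.lf 2))) (.lf 1))),
   (12, (.nd (.nd (.lf 3) (.lf 1)) (.nd (.nd (.nd (.lf 4) (.lf 1)) (.lf 1)) (.lf 2)))),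
   (12, (.nd (.nd (.lf 3) (.nd (.nd (.nd (.lf 1) (.lf 4)) (.lf 1)) (.lf 1))) (.lf 2))),
   (-12, (.nd (.nd (.lf 3) (.lf 1)) (.nd (.nd (.nd (.lf 1) (.lf 2)) (.lf 4)) (.lf 1)))),
   (-12, (.nd (.nd (.lf 3) (.nd (.nd (.nd (.lf 1) (.lf 1)) (.lf 2)) (.lf 4))) (.lf 1))),
   (12, (.nd (.nd (.lf 3) (.lf 1)) (.nd (.nd (.nd (.lf 1) (.lf 2)) (.lf 1)) (.lf 4)))),
   (12, (.nd (.nd (.lf 3) (.nd (.nd (.nd (.lf 1) (.lf 1)) (.lf 2)) (.lf 1))) (.lf 4))),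
   (12, (.nd (.nd (.lf 3) (.lf 1)) (.nd (.nd (.nd (.lf 1) (.lf 4)) (.lf 2)) (.lf 1)))),
   (12, (.nd (.nd (.lf 3) (.nd (.nd (.nd (.lf 1) (.lf 1)) (.lf 4)) (.lf 2))) (.lf 1))),
   (-12, (.nd (.nd (.lf 3) (.lf 1)) (.nd (.nd (.nd (.lf 1) (.lf 4)) (.lf 1)) (.lf 2)))),
   (-12, (.nd (.nd (.lf 3) (.nd (.nd (.nd (.lf 1) (.lf 1)) (.lf 4)) (.lf 1))) (.lf 2))),
   (-12, (.nd (.nd (.lf 3) (.lf 1)) (.nd (.nd (.nd (.lf 1) (.lf 1)) (.lf 2)) (.lf 4)))),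
   (-12, (.nd (.nd (.lf 3) (.nd (.nd (.nd (.lf 1) (.lf 1)) (.lf 1)) (.lf 2))) (.lf 4))),
   (12, (.nd (.nd (.lf 3) (.lf 1)) (.nd (.nd (.nd (.lf 1) (.lf 1)) (.lf 4)) (.lf 2)))),
   (12, (.nd (.nd (.lf 3) (.nd (.nd (.nd (.lf 1) (.lf 1)) (.lf 1)) (.lf 4))) (.lf 2)))]

/-- the certificate -/
def cert : List (ℤ × ℕ) :=
  [(135, 0xf1123f14), (63, 0xf112f143), (30, 0xf1132f14), (-36, 0xf113f142), (-63, 0xf11f1423), (-147, 0xf1f11234)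
   , (-84, 0xf1f11243), (-246, 0xf1f11324), (-45, 0xf1f11342), (-45, 0xf1f11423), (-111, 0xf1211f34), (-24, 0xf121f134)
   , (-24, 0xf1214f13), (12, 0xf121f143), (99, 0xf121f341), (-21, 0xf12f1134), (-36, 0xf12f1143), (-78, 0xf123f114)
   , (9, 0xf1234f11), (84, 0xf123f141), (-156, 0xf12f1314), (12, 0xf12f1341), (96, 0xf1241f13), (-3, 0xf124f113)
   , (-48, 0xf12f1413), (-225, 0xf12f3411), (-171, 0xf2f11134), (-84, 0xf2f11143), (-120, 0xf2f11314), (-57, 0xf2f11341)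
   , (-27, 0xf2f11413), (-84, 0xf1f12134), (-12, 0xf1f12143), (-132, 0xf1f12314), (-60, 0xf1f12341), (-168, 0xf1f12413)
   , (-96, 0xf1312f14), (-96, 0xf131f142), (-57, 0xf13f1124), (6, 0xf13f1142), (-168, 0xf1321f14), (-114, 0xf132f114)
   , (-141, 0xf1324f11), (216, 0xf132f141), (57, 0xf134f112), (72, 0xf13f1412), (21, 0xf3f11124), (6, 0xf3f11142)
   , (30, 0xf3f11214), (39, 0xf3f11241), (39, 0xf3f11412), (-120, 0xf1f13124), (-108, 0xf1f13214), (-204, 0xf1f13241)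
   , (-120, 0xf1f13412), (63, 0xf2311f14), (-42, 0xf231f114), (-45, 0xf2314f11), (27, 0xf231f141), (51, 0xf23f1114)
   , (-45, 0xf23f1141), (63, 0xf2341f11), (33, 0xf23f1411), (24, 0xf2f13114), (-192, 0xf2f13141), (-96, 0xf2f13411)
   , (3, 0xf1f23114), (-51, 0xf1f23141), (33, 0xf1f23411), (12, 0xf3f12114), (12, 0xf3f12141), (-24, 0xf3f12411)
   , (21, 0xf4f11123), (42, 0xf4f11132), (12, 0xf4f11213), (21, 0xf4f11231), (21, 0xf4f11312), (24, 0xf1f14132)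
   , (-36, 0xf1f14213), (12, 0xf1f14231), (24, 0xf1f14312), (-210, 0xf2411f13), (-153, 0xf241f113), (-66, 0xf2413f11)
   , (6, 0xf241f131), (-18, 0xf24f1113), (33, 0xf24f1131), (-93, 0xf2431f11), (6, 0xf24f1311), (-120, 0xf2f14113)
   , (-96, 0xf2f14131), (-120, 0xf2f14311), (-96, 0xf1f24113), (-96, 0xf1f24131), (-96, 0xf1f24311), (72, 0xf4f12113)
   , (48, 0xf4f12131), (72, 0xf4f12311), (-114, 0xf341f112), (51, 0xf3412f11), (57, 0xf34f1112), (123, 0xf34f1121)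
   , (-81, 0xf3421f11), (-84, 0xf4f13112), (108, 0xf4f13121), (120, 0xf4f13211), (-69, 0xf1f34112), (45, 0xf1f34121)
   , (-231, 0xf1f34211), (-36, 0xf3f14112), (36, 0xf3f14121), (-72, 0xf3f14211), (-111, 0xf4f23111), (-39, 0xf2f34111)
   , (-60, 0xf3f24111), (-42, 0xf111423), (42, 0xf112143), (-84, 0xf112413), (-60, 0xf114123), (24, 0xf121143)
   , (-12, 0xf121413), (24, 0xf124113), (36, 0xf141213), (144, 0xf142113), (6, 0xf241113), (54, 0xf112341)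
   , (6, 0xf112431), (-24, 0xf113421), (-72, 0xf114231), (-108, 0xf121341), (-60, 0xf121431), (-36, 0xf124131)
   , (132, 0xf131241), (-84, 0xf131421), (204, 0xf132141), (-120, 0xf134121), (-30, 0xf231141), (-30, 0xf234111)
   , (-60, 0xf141231), (-60, 0xf141321), (-36, 0xf142131), (162, 0xf341121), (162, 0xf342111), (-54, 0xf111324)
   , (18, 0xf112134), (-84, 0xf131124), (108, 0xf132114), (-120, 0x411213), (72, 0x421113), (-84, 0x411231)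
   , (132, 0x412131), (84, 0x421131), (-144, 0x411132), (-24, 0x311214), (-48, 0x311241), (-24, 0x411312)
   ]

set_option maxRecDepth 100000 in
theorem ok : check P cert 1 target = true := by decide +kernel

end Pool.Agent.MAL.Cert.C4
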