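import Pool.Agent.MAL.CertCore

/-! certificate C5 (generated) -/

namespace Pool.Agent.MAL.Cert.C5

open Pool.Agent.MAL.Cert

/-- parities -/
def P : ℕ → Bool := fun i => Nat.beq i 1

/-- the identity -/
def target : List (ℤ × Tr) :=
  [(-60, (.nd (.nd (.nd (.nd (.nd (.lf 2) (.lf 3)) (.lf 1)) (.lf 1)) (.lf 4)) (.lf 1))),
   (-36, (.nd (.nd (.nd (.nd (.lf 2) (.lf 3)) (.lf 1)) (.lf 1)) (.nd (.lf 4) (.lf 1)))),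
   (-36, (.nd (.nd (.nd (.lf 2) (.lf 3)) (.nd (.lf 4) (.lf 1))) (.nd (.lf 1) (.lf 1)))),
   (36, (.nd (.nd (.nd (.lf 4) (.nd (.lf 2) (.lf 3))) (.nd (.lf 1) (.lf 1))) (.lf 1))),
   (-12, (.nd (.nd (.nd (.nd (.lf 4) (.nd (.lf 2) (.lf 3))) (.lf 1)) (.lf 1)) (.lf 1))),
   (-12, (.nd (.nd (.nd (.lf 2) (.lf 3)) (.lf 1)) (.nd (.nd (.lf 4) (.lf 1)) (.lf 1)))),
   (12, (.nd (.nd (.nd (.lf 2) (.lf 3)) (.nd (.nd (.lf 4) (.lf 1)) (.lf 1))) (.lf 1))),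
   (60, (.nd (.nd (.nd (.nd (.lf 1) (.nd (.lf 2) (.lf 3))) (.lf 1)) (.lf 4)) (.lf 1))),
   (36, (.nd (.nd (.nd (.lf 1) (.nd (.lf 2) (.lf 3))) (.lf 1)) (.nd (.lf 4) (.lf 1)))),
   (36, (.nd (.nd (.lf 1) (.nd (.lf 4) (.nd (.lf 2) (.lf 3)))) (.nd (.lf 1) (.lf 1)))),
   (-36, (.nd (.nd (.nd (.lf 4) (.lf 1)) (.nd (.nd (.lf 2) (.lf 3)) (.lf 1))) (.lf 1))),
   (12, (.nd (.nd (.nd (.nd (.lf 4) (.lf 1)) (.nd (.lf 2) (.lf 3))) (.lf 1)) (.lf 1))),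
   (12, (.nd (.nd (.lf 1) (.nd (.lf 2) (.lf 3))) (.nd (.nd (.lf 4) (.lf 1)) (.lf 1)))),
   (-12, (.nd (.nd (.lf 1) (.nd (.nd (.lf 4) (.nd (.lf 2) (.lf 3))) (.lf 1))) (.lf 1))),
   (-60, (.nd (.nd (.nd (.nd (.lf 1) (.lf 1)) (.nd (.lf 2) (.lf 3))) (.lf 4)) (.lf 1))),
   (-36, (.nd (.nd (.nd (.lf 1) (.lf 1)) (.nd (.lf 2) (.lf 3))) (.nd (.lf 4) (.lf 1)))),
   (-36, (.nd (.nd (.lf 1) (.nd (.lf 4) (.lf 1))) (.nd (.nd (.lf 2) (.lf 3)) (.lf 1)))),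
   (36, (.nd (.nd (.nd (.lf 4) (.lf 1)) (.nd (.lf 1) (.nd (.lf 2) (.lf 3)))) (.lf 1))),
   (-12, (.nd (.nd (.nd (.nd (.lf 4) (.lf 1)) (.lf 1)) (.nd (.lf 2) (.lf 3))) (.lf 1))),
   (-12, (.nd (.nd (.lf 1) (.lf 1)) (.nd (.nd (.lf 4) (.nd (.lf 2) (.lf 3))) (.lf 1)))),
   (12, (.nd (.nd (.lf 1) (.nd (.nd (.lf 4) (.lf 1)) (.nd (.lf 2) (.lf 3)))) (.lf 1))),
   (60, (.nd (.nd (.nd (.nd (.lf 1) (.lf 1)) (.lf 1)) (.lf 4)) (.nd (.lf 2) (.lf 3)))),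
   (36, (.nd (.nd (.nd (.lf 1) (.lf 1)) (.lf 1)) (.nd (.lf 4) (.nd (.lf 2) (.lf 3))))),
   (36, (.nd (.nd (.lf 1) (.nd (.lf 4) (.lf 1))) (.nd (.lf 1) (.nd (.lf 2) (.lf 3))))),
   (-36, (.nd (.nd (.nd (.lf 4) (.lf 1)) (.nd (.lf 1) (.lf 1))) (.nd (.lf 2) (.lf 3)))),
   (12, (.nd (.nd (.nd (.nd (.lf 4) (.lf 1)) (.lf 1)) (.lf 1)) (.nd (.lf 2) (.lf 3)))),
   (12, (.nd (.nd (.lf 1) (.lf 1)) (.nd (.nd (.lf 4) (.lf 1)) (.nd (.lf 2) (.lf 3))))),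
   (-12, (.nd (.nd (.lf 1) (.nd (.nd (.lf 4) (.lf 1)) (.lf 1))) (.nd (.lf 2) (.lf 3)))),
   (15, (.nd (.nd (.nd (.nd (.lf 2) (.lf 1)) (.nd (.lf 1) (.lf 1))) (.lf 4)) (.lf 3))),
   (9, (.nd (.nd (.nd (.lf 2) (.lf 1)) (.nd (.lf 1) (.lf 1))) (.nd (.lf 4) (.lf 3)))),
   (9, (.nd (.nd (.lf 2) (.nd (.lf 4) (.lf 1))) (.nd (.nd (.lf 1) (.lf 1)) (.lf 3)))),
   (-9, (.nd (.nd (.nd (.lf 4) (.lf 2)) (.nd (.lf 1) (.nd (.lf 1) (.lf 1)))) (.lf 3))),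
   (3, (.nd (.nd (.nd (.nd (.lf 4) (.lf 2)) (.lf 1)) (.nd (.lf 1) (.lf 1))) (.lf 3))),
   (3, (.nd (.nd (.lf 2) (.lf 1)) (.nd (.nd (.lf 4) (.nd (.lf 1) (.lf 1))) (.lf 3)))),
   (-3, (.nd (.nd (.lf 2) (.nd (.nd (.lf 4) (.lf 1)) (.nd (.lf 1) (.lf 1)))) (.lf 3))),
   (-15, (.nd (.nd (.nd (.nd (.lf 2) (.lf 1)) (.lf 3)) (.lf 4)) (.nd (.lf 1) (.lf 1)))),
   (-9, (.nd (.nd (.nd (.lf 2) (.lf 1)) (.lf 3)) (.nd (.lf 4) (.nd (.lf 1) (.lf 1))))),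
   (-9, (.nd (.nd (.lf 2) (.nd (.lf 4) (.lf 1))) (.nd (.lf 3) (.nd (.lf 1) (.lf 1))))),
   (9, (.nd (.nd (.nd (.lf 4) (.lf 2)) (.nd (.lf 1) (.lf 3))) (.nd (.lf 1) (.lf 1)))),
   (-3, (.nd (.nd (.nd (.nd (.lf 4) (.lf 2)) (.lf 1)) (.lf 3)) (.nd (.lf 1) (.lf 1)))),
   (-3, (.nd (.nd (.lf 2) (.lf 1)) (.nd (.nd (.lf 4) (.lf 3)) (.nd (.lf 1) (.lf 1))))),
   (3, (.nd (.nd (.lf 2) (.nd (.nd (.lf 4) (.lf 1)) (.lf 3))) (.nd (.lf 1) (.lf 1)))),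
   (-15, (.nd (.nd (.nd (.nd (.lf 2) (.nd (.lf 1) (.lf 1))) (.lf 1)) (.lf 4)) (.lf 3))),
   (-9, (.nd (.nd (.nd (.lf 2) (.nd (.lf 1) (.lf 1))) (.lf 1)) (.nd (.lf 4) (.lf 3)))),
   (-9, (.nd (.nd (.lf 2) (.nd (.lf 4) (.nd (.lf 1) (.lf 1)))) (.nd (.lf 1) (.lf 3)))),
   (9, (.nd (.nd (.nd (.lf 4) (.lf 2)) (.nd (.nd (.lf 1) (.lf 1)) (.lf 1))) (.lf 3))),
   (-3, (.nd (.nd (.nd (.nd (.lf 4) (.lf 2)) (.nd (.lf 1) (.lf 1))) (.lf 1)) (.lf 3))),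
   (-3, (.nd (.nd (.lf 2) (.nd (.lf 1) (.lf 1))) (.nd (.nd (.lf 4) (.lf 1)) (.lf 3)))),
   (3, (.nd (.nd (.lf 2) (.nd (.nd (.lf 4) (.nd (.lf 1) (.lf 1))) (.lf 1))) (.lf 3))),
   (15, (.nd (.nd (.nd (.nd (.lf 2) (.nd (.lf 1) (.lf 1))) (.lf 3)) (.lf 4)) (.lf 1))),
   (9, (.nd (.nd (.nd (.lf 2) (.nd (.lf 1) (.lf 1))) (.lf 3)) (.nd (.lf 4) (.lf 1)))),
   (9, (.nd (.nd (.lf 2) (.nd (.lf 4) (.nd (.lf 1) (.lf 1)))) (.nd (.lf 3) (.lf 1)))),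
   (-9, (.nd (.nd (.nd (.lf 4) (.lf 2)) (.nd (.nd (.lf 1) (.lf 1)) (.lf 3))) (.lf 1))),
   (3, (.nd (.nd (.nd (.nd (.lf 4) (.lf 2)) (.nd (.lf 1) (.lf 1))) (.lf 3)) (.lf 1))),
   (3, (.nd (.nd (.lf 2) (.nd (.lf 1) (.lf 1))) (.nd (.nd (.lf 4) (.lf 3)) (.lf 1)))),
   (-3, (.nd (.nd (.lf 2) (.nd (.nd (.lf 4) (.nd (.lf 1) (.lf 1))) (.lf 3))) (.lf 1))),
   (15, (.nd (.nd (.nd (.nd (.lf 2) (.lf 3)) (.lf 1)) (.lf 4)) (.nd (.lf 1) (.lf 1)))),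
   (9, (.nd (.nd (.nd (.lf 2) (.lf 3)) (.lf 1)) (.nd (.lf 4) (.nd (.lf 1) (.lf 1))))),
   (9, (.nd (.nd (.lf 2) (.nd (.lf 4) (.lf 3))) (.nd (.lf 1) (.nd (.lf 1) (.lf 1))))),
   (-9, (.nd (.nd (.nd (.lf 4) (.lf 2)) (.nd (.lf 3) (.lf 1))) (.nd (.lf 1) (.lf 1)))),
   (3, (.nd (.nd (.nd (.nd (.lf 4) (.lf 2)) (.lf 3)) (.lf 1)) (.nd (.lf 1) (.lf 1)))),
   (3, (.nd (.nd (.lf 2) (.lf 3)) (.nd (.nd (.lf 4) (.lf 1)) (.nd (.lf 1) (.lf 1))))),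
   (-3, (.nd (.nd (.lf 2) (.nd (.nd (.lf 4) (.lf 3)) (.lf 1))) (.nd (.lf 1) (.lf 1)))),
   (-15, (.nd (.nd (.nd (.nd (.lf 2) (.lf 3)) (.nd (.lf 1) (.lf 1))) (.lf 4)) (.lf 1))),
   (-9, (.nd (.nd (.nd (.lf 2) (.lf 3)) (.nd (.lf 1) (.lf 1))) (.nd (.lf 4) (.lf 1)))),
   (-9, (.nd (.nd (.lf 2) (.nd (.lf 4) (.lf 3))) (.nd (.nd (.lf 1) (.lf 1)) (.lf 1)))),
   (9, (.nd (.nd (.nd (.lf 4) (.lf 2)) (.nd (.lf 3) (.nd (.lf 1) (.lf 1)))) (.lf 1))),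
   (-3, (.nd (.nd (.nd (.nd (.lf 4) (.lf 2)) (.lf 3)) (.nd (.lf 1) (.lf 1))) (.lf 1))),
   (-3, (.nd (.nd (.lf 2) (.lf 3)) (.nd (.nd (.lf 4) (.nd (.lf 1) (.lf 1))) (.lf 1)))),
   (3, (.nd (.nd (.lf 2) (.nd (.nd (.lf 4) (.lf 3)) (.nd (.lf 1) (.lf 1)))) (.lf 1))),
   (-15, (.nd (.nd (.nd (.nd (.lf 1) (.lf 2)) (.nd (.lf 1) (.lf 1))) (.lf 4)) (.lf 3))),
   (-9, (.nd (.nd (.nd (.lf 1) (.lf 2)) (.nd (.lf 1) (.lf 1))) (.nd (.lf 4) (.lf 3)))),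
   (-9, (.nd (.nd (.lf 1) (.nd (.lf 4) (.lf 2))) (.nd (.nd (.lf 1) (.lf 1)) (.lf 3)))),
   (9, (.nd (.nd (.nd (.lf 4) (.lf 1)) (.nd (.lf 2) (.nd (.lf 1) (.lf 1)))) (.lf 3))),
   (-3, (.nd (.nd (.nd (.nd (.lf 4) (.lf 1)) (.lf 2)) (.nd (.lf 1) (.lf 1))) (.lf 3))),
   (-3, (.nd (.nd (.lf 1) (.lf 2)) (.nd (.nd (.lf 4) (.nd (.lf 1) (.lf 1))) (.lf 3)))),
   (3, (.nd (.nd (.lf 1) (.nd (.nd (.lf 4) (.lf 2)) (.nd (.lf 1) (.lf 1)))) (.lf 3))),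
   (15, (.nd (.nd (.nd (.nd (.lf 1) (.lf 2)) (.lf 3)) (.lf 4)) (.nd (.lf 1) (.lf 1)))),
   (9, (.nd (.nd (.nd (.lf 1) (.lf 2)) (.lf 3)) (.nd (.lf 4) (.nd (.lf 1) (.lf 1))))),
   (9, (.nd (.nd (.lf 1) (.nd (.lf 4) (.lf 2))) (.nd (.lf 3) (.nd (.lf 1) (.lf 1))))),
   (-9, (.nd (.nd (.nd (.lf 4) (.lf 1)) (.nd (.lf 2) (.lf 3))) (.nd (.lf 1) (.lf 1)))),
   (3, (.nd (.nd (.nd (.nd (.lf 4) (.lf 1)) (.lf 2)) (.lf 3)) (.nd (.lf 1) (.lf 1)))),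
   (3, (.nd (.nd (.lf 1) (.lf 2)) (.nd (.nd (.lf 4) (.lf 3)) (.nd (.lf 1) (.lf 1))))),
   (-3, (.nd (.nd (.lf 1) (.nd (.nd (.lf 4) (.lf 2)) (.lf 3))) (.nd (.lf 1) (.lf 1)))),
   (15, (.nd (.nd (.nd (.nd (.lf 1) (.nd (.lf 1) (.lf 1))) (.lf 2)) (.lf 4)) (.lf 3))),
   (9, (.nd (.nd (.nd (.lf 1) (.nd (.lf 1) (.lf 1))) (.lf 2)) (.nd (.lf 4) (.lf 3)))),
   (9, (.nd (.nd (.lf 1) (.nd (.lf 4) (.nd (.lf 1) (.lf 1)))) (.nd (.lf 2) (.lf 3)))),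
   (-9, (.nd (.nd (.nd (.lf 4) (.lf 1)) (.nd (.nd (.lf 1) (.lf 1)) (.lf 2))) (.lf 3))),
   (3, (.nd (.nd (.nd (.nd (.lf 4) (.lf 1)) (.nd (.lf 1) (.lf 1))) (.lf 2)) (.lf 3))),
   (3, (.nd (.nd (.lf 1) (.nd (.lf 1) (.lf 1))) (.nd (.nd (.lf 4) (.lf 2)) (.lf 3)))),
   (-3, (.nd (.nd (.lf 1) (.nd (.nd (.lf 4) (.nd (.lf 1) (.lf 1))) (.lf 2))) (.lf 3))),
   (-15, (.nd (.nd (.nd (.nd (.lf 1) (.nd (.lf 1) (.lf 1))) (.lf 3)) (.lf 4)) (.lf 2))),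
   (-9, (.nd (.nd (.nd (.lf 1) (.nd (.lf 1) (.lf 1))) (.lf 3)) (.nd (.lf 4) (.lf 2)))),
   (-9, (.nd (.nd (.lf 1) (.nd (.lf 4) (.nd (.lf 1) (.lf 1)))) (.nd (.lf 3) (.lf 2)))),
   (9, (.nd (.nd (.nd (.lf 4) (.lf 1)) (.nd (.nd (.lf 1) (.lf 1)) (.lf 3))) (.lf 2))),
   (-3, (.nd (.nd (.nd (.nd (.lf 4) (.lf 1)) (.nd (.lf 1) (.lf 1))) (.lf 3)) (.lf 2))),
   (-3, (.nd (.nd (.lf 1) (.nd (.lf 1) (.lf 1))) (.nd (.nd (.lf 4) (.lf 3)) (.lf 2)))),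
   (3, (.nd (.nd (.lf 1) (.nd (.nd (.lf 4) (.nd (.lf 1) (.lf 1))) (.lf 3))) (.lf 2))),
   (-15, (.nd (.nd (.nd (.nd (.lf 1) (.lf 3)) (.lf 2)) (.lf 4)) (.nd (.lf 1) (.lf 1)))),
   (-9, (.nd (.nd (.nd (.lf 1) (.lf 3)) (.lf 2)) (.nd (.lf 4) (.nd (.lf 1) (.lf 1))))),
   (-9, (.nd (.nd (.lf 1) (.nd (.lf 4) (.lf 3))) (.nd (.lf 2) (.nd (.lf 1) (.lf 1))))),
   (9, (.nd (.nd (.nd (.lf 4) (.lf 1)) (.nd (.lf 3) (.lf 2))) (.nd (.lf 1) (.lf 1)))),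
   (-3, (.nd (.nd (.nd (.nd (.lf 4) (.lf 1)) (.lf 3)) (.lf 2)) (.nd (.lf 1) (.lf 1)))),
   (-3, (.nd (.nd (.lf 1) (.lf 3)) (.nd (.nd (.lf 4) (.lf 2)) (.nd (.lf 1) (.lf 1))))),
   (3, (.nd (.nd (.lf 1) (.nd (.nd (.lf 4) (.lf 3)) (.lf 2))) (.nd (.lf 1) (.lf 1)))),
   (15, (.nd (.nd (.nd (.nd (.lf 1) (.lf 3)) (.nd (.lf 1) (.lf 1))) (.lf 4)) (.lf 2))),
   (9, (.nd (.nd (.nd (.lf 1) (.lf 3)) (.nd (.lf 1) (.lf 1))) (.nd (.lf 4) (.lf 2)))),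
   (9, (.nd (.nd (.lf 1) (.nd (.lf 4) (.lf 3))) (.nd (.nd (.lf 1) (.lf 1)) (.lf 2)))),
   (-9, (.nd (.nd (.nd (.lf 4) (.lf 1)) (.nd (.lf 3) (.nd (.lf 1) (.lf 1)))) (.lf 2))),
   (3, (.nd (.nd (.nd (.nd (.lf 4) (.lf 1)) (.lf 3)) (.nd (.lf 1) (.lf 1))) (.lf 2))),
   (3, (.nd (.nd (.lf 1) (.lf 3)) (.nd (.nd (.lf 4) (.nd (.lf 1) (.lf 1))) (.lf 2)))),
   (-3, (.nd (.nd (.lf 1) (.nd (.nd (.lf 4) (.lf 3)) (.nd (.lf 1) (.lf 1)))) (.lf 2))),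
   (15, (.nd (.nd (.nd (.nd (.nd (.lf 1) (.lf 1)) (.lf 2)) (.lf 1)) (.lf 4)) (.lf 3))),
   (9, (.nd (.nd (.nd (.nd (.lf 1) (.lf 1)) (.lf 2)) (.lf 1)) (.nd (.lf 4) (.lf 3)))),
   (9, (.nd (.nd (.nd (.lf 1) (.lf 1)) (.nd (.lf 4) (.lf 2))) (.nd (.lf 1) (.lf 3)))),
   (-9, (.nd (.nd (.nd (.lf 4) (.nd (.lf 1) (.lf 1))) (.nd (.lf 2) (.lf 1))) (.lf 3))),
   (3, (.nd (.nd (.nd (.nd (.lf 4) (.nd (.lf 1) (.lf 1))) (.lf 2)) (.lf 1)) (.lf 3))),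
   (3, (.nd (.nd (.nd (.lf 1) (.lf 1)) (.lf 2)) (.nd (.nd (.lf 4) (.lf 1)) (.lf 3)))),
   (-3, (.nd (.nd (.nd (.lf 1) (.lf 1)) (.nd (.nd (.lf 4) (.lf 2)) (.lf 1))) (.lf 3))),
   (-15, (.nd (.nd (.nd (.nd (.nd (.lf 1) (.lf 1)) (.lf 2)) (.lf 3)) (.lf 4)) (.lf 1))),
   (-9, (.nd (.nd (.nd (.nd (.lf 1) (.lf 1)) (.lf 2)) (.lf 3)) (.nd (.lf 4) (.lf 1)))),
   (-9, (.nd (.nd (.nd (.lf 1) (.lf 1)) (.nd (.lf 4) (.lf 2))) (.nd (.lf 3) (.lf 1)))),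
   (9, (.nd (.nd (.nd (.lf 4) (.nd (.lf 1) (.lf 1))) (.nd (.lf 2) (.lf 3))) (.lf 1))),
   (-3, (.nd (.nd (.nd (.nd (.lf 4) (.nd (.lf 1) (.lf 1))) (.lf 2)) (.lf 3)) (.lf 1))),
   (-3, (.nd (.nd (.nd (.lf 1) (.lf 1)) (.lf 2)) (.nd (.nd (.lf 4) (.lf 3)) (.lf 1)))),
   (3, (.nd (.nd (.nd (.lf 1) (.lf 1)) (.nd (.nd (.lf 4) (.lf 2)) (.lf 3))) (.lf 1))),
   (-15, (.nd (.nd (.nd (.nd (.nd (.lf 1) (.lf 1)) (.lf 1)) (.lf 2)) (.lf 4)) (.lf 3))),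
   (-9, (.nd (.nd (.nd (.nd (.lf 1) (.lf 1)) (.lf 1)) (.lf 2)) (.nd (.lf 4) (.lf 3)))),
   (-9, (.nd (.nd (.nd (.lf 1) (.lf 1)) (.nd (.lf 4) (.lf 1))) (.nd (.lf 2) (.lf 3)))),
   (9, (.nd (.nd (.nd (.lf 4) (.nd (.lf 1) (.lf 1))) (.nd (.lf 1) (.lf 2))) (.lf 3))),
   (-3, (.nd (.nd (.nd (.nd (.lf 4) (.nd (.lf 1) (.lf 1))) (.lf 1)) (.lf 2)) (.lf 3))),
   (-3, (.nd (.nd (.nd (.lf 1) (.lf 1)) (.lf 1)) (.nd (.nd (.lf 4) (.lf 2)) (.lf 3)))),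
   (3, (.nd (.nd (.nd (.lf 1) (.lf 1)) (.nd (.nd (.lf 4) (.lf 1)) (.lf 2))) (.lf 3))),
   (15, (.nd (.nd (.nd (.nd (.nd (.lf 1) (.lf 1)) (.lf 1)) (.lf 3)) (.lf 4)) (.lf 2))),
   (9, (.nd (.nd (.nd (.nd (.lf 1) (.lf 1)) (.lf 1)) (.lf 3)) (.nd (.lf 4) (.lf 2)))),
   (9, (.nd (.nd (.nd (.lf 1) (.lf 1)) (.nd (.lf 4) (.lf 1))) (.nd (.lf 3) (.lf 2)))),
   (-9, (.nd (.nd (.nd (.lf 4) (.nd (.lf 1) (.lf 1))) (.nd (.lf 1) (.lf 3))) (.lf 2))),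
   (3, (.nd (.nd (.nd (.nd (.lf 4) (.nd (.lf 1) (.lf 1))) (.lf 1)) (.lf 3)) (.lf 2))),
   (3, (.nd (.nd (.nd (.lf 1) (.lf 1)) (.lf 1)) (.nd (.nd (.lf 4) (.lf 3)) (.lf 2)))),
   (-3, (.nd (.nd (.nd (.lf 1) (.lf 1)) (.nd (.nd (.lf 4) (.lf 1)) (.lf 3))) (.lf 2))),
   (15, (.nd (.nd (.nd (.nd (.nd (.lf 1) (.lf 1)) (.lf 3)) (.lf 2)) (.lf 4)) (.lf 1))),
   (9, (.nd (.nd (.nd (.nd (.lf 1) (.lf 1)) (.lf 3)) (.lf 2)) (.nd (.lf 4) (.lf 1)))),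
   (9, (.nd (.nd (.nd (.lf 1) (.lf 1)) (.nd (.lf 4) (.lf 3))) (.nd (.lf 2) (.lf 1)))),
   (-9, (.nd (.nd (.nd (.lf 4) (.nd (.lf 1) (.lf 1))) (.nd (.lf 3) (.lf 2))) (.lf 1))),
   (3, (.nd (.nd (.nd (.nd (.lf 4) (.nd (.lf 1) (.lf 1))) (.lf 3)) (.lf 2)) (.lf 1))),
   (3, (.nd (.nd (.nd (.lf 1) (.lf 1)) (.lf 3)) (.nd (.nd (.lf 4) (.lf 2)) (.lf 1)))),
   (-3, (.nd (.nd (.nd (.lf 1) (.lf 1)) (.nd (.nd (.lf 4) (.lf 3)) (.lf 2))) (.lf 1))),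
   (-15, (.nd (.nd (.nd (.nd (.nd (.lf 1) (.lf 1)) (.lf 3)) (.lf 1)) (.lf 4)) (.lf 2))),
   (-9, (.nd (.nd (.nd (.nd (.lf 1) (.lf 1)) (.lf 3)) (.lf 1)) (.nd (.lf 4) (.lf 2)))),
   (-9, (.nd (.nd (.nd (.lf 1) (.lf 1)) (.nd (.lf 4) (.lf 3))) (.nd (.lf 1) (.lf 2)))),
   (9, (.nd (.nd (.nd (.lf 4) (.nd (.lf 1) (.lf 1))) (.nd (.lf 3) (.lf 1))) (.lf 2))),
   (-3, (.nd (.nd (.nd (.nd (.lf 4) (.nd (.lf 1) (.lf 1))) (.lf 3)) (.lf 1)) (.lf 2))),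
   (-3, (.nd (.nd (.nd (.lf 1) (.lf 1)) (.lf 3)) (.nd (.nd (.lf 4) (.lf 1)) (.lf 2)))),
   (3, (.nd (.nd (.nd (.lf 1) (.lf 1)) (.nd (.nd (.lf 4) (.lf 3)) (.lf 1))) (.lf 2))),
   (-15, (.nd (.nd (.nd (.nd (.lf 3) (.lf 2)) (.lf 1)) (.lf 4)) (.nd (.lf 1) (.lf 1)))),
   (-9, (.nd (.nd (.nd (.lf 3) (.lf 2)) (.lf 1)) (.nd (.lf 4) (.nd (.lf 1) (.lf 1))))),
   (-9, (.nd (.nd (.lf 3) (.nd (.lf 4) (.lf 2))) (.nd (.lf 1) (.nd (.lf 1) (.lf 1))))),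
   (9, (.nd (.nd (.nd (.lf 4) (.lf 3)) (.nd (.lf 2) (.lf 1))) (.nd (.lf 1) (.lf 1)))),
   (-3, (.nd (.nd (.nd (.nd (.lf 4) (.lf 3)) (.lf 2)) (.lf 1)) (.nd (.lf 1) (.lf 1)))),
   (-3, (.nd (.nd (.lf 3) (.lf 2)) (.nd (.nd (.lf 4) (.lf 1)) (.nd (.lf 1) (.lf 1))))),
   (3, (.nd (.nd (.lf 3) (.nd (.nd (.lf 4) (.lf 2)) (.lf 1))) (.nd (.lf 1) (.lf 1)))),
   (15, (.nd (.nd (.nd (.nd (.lf 3) (.lf 2)) (.nd (.lf 1) (.lf 1))) (.lf 4)) (.lf 1))),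
   (9, (.nd (.nd (.nd (.lf 3) (.lf 2)) (.nd (.lf 1) (.lf 1))) (.nd (.lf 4) (.lf 1)))),
   (9, (.nd (.nd (.lf 3) (.nd (.lf 4) (.lf 2))) (.nd (.nd (.lf 1) (.lf 1)) (.lf 1)))),
   (-9, (.nd (.nd (.nd (.lf 4) (.lf 3)) (.nd (.lf 2) (.nd (.lf 1) (.lf 1)))) (.lf 1))),
   (3, (.nd (.nd (.nd (.nd (.lf 4) (.lf 3)) (.lf 2)) (.nd (.lf 1) (.lf 1))) (.lf 1))),
   (3, (.nd (.nd (.lf 3) (.lf 2)) (.nd (.nd (.lf 4) (.nd (.lf 1) (.lf 1))) (.lf 1)))),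
   (-3, (.nd (.nd (.lf 3) (.nd (.nd (.lf 4) (.lf 2)) (.nd (.lf 1) (.lf 1)))) (.lf 1))),
   (15, (.nd (.nd (.nd (.nd (.lf 3) (.lf 1)) (.lf 2)) (.lf 4)) (.nd (.lf 1) (.lf 1)))),
   (9, (.nd (.nd (.nd (.lf 3) (.lf 1)) (.lf 2)) (.nd (.lf 4) (.nd (.lf 1) (.lf 1))))),
   (9, (.nd (.nd (.lf 3) (.nd (.lf 4) (.lf 1))) (.nd (.lf 2) (.nd (.lf 1) (.lf 1))))),
   (-9, (.nd (.nd (.nd (.lf 4) (.lf 3)) (.nd (.lf 1) (.lf 2))) (.nd (.lf 1) (.lf 1)))),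
   (3, (.nd (.nd (.nd (.nd (.lf 4) (.lf 3)) (.lf 1)) (.lf 2)) (.nd (.lf 1) (.lf 1)))),
   (3, (.nd (.nd (.lf 3) (.lf 1)) (.nd (.nd (.lf 4) (.lf 2)) (.nd (.lf 1) (.lf 1))))),
   (-3, (.nd (.nd (.lf 3) (.nd (.nd (.lf 4) (.lf 1)) (.lf 2))) (.nd (.lf 1) (.lf 1)))),
   (-15, (.nd (.nd (.nd (.nd (.lf 3) (.lf 1)) (.nd (.lf 1) (.lf 1))) (.lf 4)) (.lf 2))),
   (-9, (.nd (.nd (.nd (.lf 3) (.lf 1)) (.nd (.lf 1) (.lf 1))) (.nd (.lf 4) (.lf 2)))),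
   (-9, (.nd (.nd (.lf 3) (.nd (.lf 4) (.lf 1))) (.nd (.nd (.lf 1) (.lf 1)) (.lf 2)))),
   (9, (.nd (.nd (.nd (.lf 4) (.lf 3)) (.nd (.lf 1) (.nd (.lf 1) (.lf 1)))) (.lf 2))),
   (-3, (.nd (.nd (.nd (.nd (.lf 4) (.lf 3)) (.lf 1)) (.nd (.lf 1) (.lf 1))) (.lf 2))),
   (-3, (.nd (.nd (.lf 3) (.lf 1)) (.nd (.nd (.lf 4) (.nd (.lf 1) (.lf 1))) (.lf 2)))),
   (3, (.nd (.nd (.lf 3) (.nd (.nd (.lf 4) (.lf 1)) (.nd (.lf 1) (.lf 1)))) (.lf 2))),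
   (-15, (.nd (.nd (.nd (.nd (.lf 3) (.nd (.lf 1) (.lf 1))) (.lf 2)) (.lf 4)) (.lf 1))),
   (-9, (.nd (.nd (.nd (.lf 3) (.nd (.lf 1) (.lf 1))) (.lf 2)) (.nd (.lf 4) (.lf 1)))),
   (-9, (.nd (.nd (.lf 3) (.nd (.lf 4) (.nd (.lf 1) (.lf 1)))) (.nd (.lf 2) (.lf 1)))),
   (9, (.nd (.nd (.nd (.lf 4) (.lf 3)) (.nd (.nd (.lf 1) (.lf 1)) (.lf 2))) (.lf 1))),
   (-3, (.nd (.nd (.nd (.nd (.lf 4) (.lf 3)) (.nd (.lf 1) (.lf 1))) (.lf 2)) (.lf 1))),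
   (-3, (.nd (.nd (.lf 3) (.nd (.lf 1) (.lf 1))) (.nd (.nd (.lf 4) (.lf 2)) (.lf 1)))),
   (3, (.nd (.nd (.lf 3) (.nd (.nd (.lf 4) (.nd (.lf 1) (.lf 1))) (.lf 2))) (.lf 1))),
   (15, (.nd (.nd (.nd (.nd (.lf 3) (.nd (.lf 1) (.lf 1))) (.lf 1)) (.lf 4)) (.lf 2))),
   (9, (.nd (.nd (.nd (.lf 3) (.nd (.lf 1) (.lf 1))) (.lf 1)) (.nd (.lf 4) (.lf 2)))),
   (9, (.nd (.nd (.lf 3) (.nd (.lf 4) (.nd (.lf 1) (.lf 1)))) (.nd (.lf 1) (.lf 2)))),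
   (-9, (.nd (.nd (.nd (.lf 4) (.lf 3)) (.nd (.nd (.lf 1) (.lf 1)) (.lf 1))) (.lf 2))),
   (3, (.nd (.nd (.nd (.nd (.lf 4) (.lf 3)) (.nd (.lf 1) (.lf 1))) (.lf 1)) (.lf 2))),
   (3, (.nd (.nd (.lf 3) (.nd (.lf 1) (.lf 1))) (.nd (.nd (.lf 4) (.lf 1)) (.lf 2)))),
   (-3, (.nd (.nd (.lf 3) (.nd (.nd (.lf 4) (.nd (.lf 1) (.lf 1))) (.lf 1))) (.lf 2))),
   (-12, (.nd (.nd (.lf 4) (.lf 2)) (.nd (.nd (.nd (.lf 3) (.lf 1)) (.lf 1)) (.lf 1)))),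
   (-12, (.nd (.nd (.lf 4) (.nd (.nd (.nd (.lf 2) (.lf 3)) (.lf 1)) (.lf 1))) (.lf 1))),
   (12, (.nd (.nd (.lf 4) (.lf 2)) (.nd (.nd (.nd (.lf 1) (.lf 3)) (.lf 1)) (.lf 1)))),
   (12, (.nd (.nd (.lf 4) (.nd (.nd (.nd (.lf 2) (.lf 1)) (.lf 3)) (.lf 1))) (.lf 1))),
   (-12, (.nd (.nd (.lf 4) (.lf 2)) (.nd (.nd (.nd (.lf 1) (.lf 1)) (.lf 3)) (.lf 1)))),
   (-12, (.nd (.nd (.lf 4) (.nd (.nd (.nd (.lf 2) (.lf 1)) (.lf 1)) (.lf 3))) (.lf 1))),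
   (12, (.nd (.nd (.lf 4) (.lf 2)) (.nd (.nd (.nd (.lf 1) (.lf 1)) (.lf 1)) (.lf 3)))),
   (12, (.nd (.nd (.lf 4) (.nd (.nd (.nd (.lf 2) (.lf 1)) (.lf 1)) (.lf 1))) (.lf 3))),
   (12, (.nd (.nd (.lf 4) (.lf 3)) (.nd (.nd (.nd (.lf 2) (.lf 1)) (.lf 1)) (.lf 1)))),
   (12, (.nd (.nd (.lf 4) (.nd (.nd (.nd (.lf 3) (.lf 2)) (.lf 1)) (.lf 1))) (.lf 1))),
   (-12, (.nd (.nd (.lf 4) (.lf 3)) (.nd (.nd (.nd (.lf 1) (.lf 2)) (.lf 1)) (.lf 1)))),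
   (-12, (.nd (.nd (.lf 4) (.nd (.nd (.nd (.lf 3) (.lf 1)) (.lf 2)) (.lf 1))) (.lf 1))),
   (12, (.nd (.nd (.lf 4) (.lf 3)) (.nd (.nd (.nd (.lf 1) (.lf 1)) (.lf 2)) (.lf 1)))),
   (12, (.nd (.nd (.lf 4) (.nd (.nd (.nd (.lf 3) (.lf 1)) (.lf 1)) (.lf 2))) (.lf 1))),
   (-12, (.nd (.nd (.lf 4) (.lf 3)) (.nd (.nd (.nd (.lf 1) (.lf 1)) (.lf 1)) (.lf 2)))),
   (-12, (.nd (.nd (.lf 4) (.nd (.nd (.nd (.lf 3) (.lf 1)) (.lf 1)) (.lf 1))) (.lf 2))),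
   (-12, (.nd (.nd (.lf 4) (.lf 1)) (.nd (.nd (.nd (.lf 2) (.lf 3)) (.lf 1)) (.lf 1)))),
   (-12, (.nd (.nd (.lf 4) (.nd (.nd (.nd (.lf 1) (.lf 2)) (.lf 3)) (.lf 1))) (.lf 1))),
   (12, (.nd (.nd (.lf 4) (.lf 1)) (.nd (.nd (.nd (.lf 2) (.lf 1)) (.lf 3)) (.lf 1)))),
   (12, (.nd (.nd (.lf 4) (.nd (.nd (.nd (.lf 1) (.lf 2)) (.lf 1)) (.lf 3))) (.lf 1))),
   (-12, (.nd (.nd (.lf 4) (.lf 1)) (.nd (.nd (.nd (.lf 2) (.lf 1)) (.lf 1)) (.lf 3)))),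
   (-12, (.nd (.nd (.lf 4) (.nd (.nd (.nd (.lf 1) (.lf 2)) (.lf 1)) (.lf 1))) (.lf 3))),
   (12, (.nd (.nd (.lf 4) (.lf 1)) (.nd (.nd (.nd (.lf 3) (.lf 2)) (.lf 1)) (.lf 1)))),
   (12, (.nd (.nd (.lf 4) (.nd (.nd (.nd (.lf 1) (.lf 3)) (.lf 2)) (.lf 1))) (.lf 1))),
   (-12, (.nd (.nd (.lf 4) (.lf 1)) (.nd (.nd (.nd (.lf 3) (.lf 1)) (.lf 2)) (.lf 1)))),
   (-12, (.nd (.nd (.lf 4) (.nd (.nd (.nd (.lf 1) (.lf 3)) (.lf 1)) (.lf 2))) (.lf 1))),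
   (12, (.nd (.nd (.lf 4) (.lf 1)) (.nd (.nd (.nd (.lf 3) (.lf 1)) (.lf 1)) (.lf 2)))),
   (12, (.nd (.nd (.lf 4) (.nd (.nd (.nd (.lf 1) (.lf 3)) (.lf 1)) (.lf 1))) (.lf 2))),
   (-12, (.nd (.nd (.lf 4) (.lf 1)) (.nd (.nd (.nd (.lf 1) (.lf 2)) (.lf 3)) (.lf 1)))),
   (-12, (.nd (.nd (.lf 4) (.nd (.nd (.nd (.lf 1) (.lf 1)) (.lf 2)) (.lf 3))) (.lf 1))),
   (12, (.nd (.nd (.lf 4) (.lf 1)) (.nd (.nd (.nd (.lf 1) (.lf 2)) (.lf 1)) (.lf 3)))),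
   (12, (.nd (.nd (.lf 4) (.nd (.nd (.nd (.lf 1) (.lf 1)) (.lf 2)) (.lf 1))) (.lf 3))),
   (12, (.nd (.nd (.lf 4) (.lf 1)) (.nd (.nd (.nd (.lf 1) (.lf 3)) (.lf 2)) (.lf 1)))),
   (12, (.nd (.nd (.lf 4) (.nd (.nd (.nd (.lf 1) (.lf 1)) (.lf 3)) (.lf 2))) (.lf 1))),
   (-12, (.nd (.nd (.lf 4) (.lf 1)) (.nd (.nd (.nd (.lf 1) (.lf 3)) (.lf 1)) (.lf 2)))),
   (-12, (.nd (.nd (.lf 4) (.nd (.nd (.nd (.lf 1) (.lf 1)) (.lf 3)) (.lf 1))) (.lf 2))),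
   (-12, (.nd (.nd (.lf 4) (.lf 1)) (.nd (.nd (.nd (.lf 1) (.lf 1)) (.lf 2)) (.lf 3)))),
   (-12, (.nd (.nd (.lf 4) (.nd (.nd (.nd (.lf 1) (.lf 1)) (.lf 1)) (.lf 2))) (.lf 3))),
   (12, (.nd (.nd (.lf 4) (.lf 1)) (.nd (.nd (.nd (.lf 1) (.lf 1)) (.lf 3)) (.lf 2)))),
   (12, (.nd (.nd (.lf 4) (.nd (.nd (.nd (.lf 1) (.lf 1)) (.lf 1)) (.lf 3))) (.lf 2)))]

/-- the certificate -/
def cert : List (ℤ × ℕ) :=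
  [(-33, 0xf111f234), (24, 0xf1114f23), (30, 0xf1123f14), (12, 0xf112f143), (30, 0xf1132f14), (54, 0xf113f142)
   , (12, 0xf11f2314), (21, 0xf11f2341), (21, 0xf1141f23), (102, 0xf11f1423), (36, 0xf1f11234), (-48, 0xf1f11243)
   , (-36, 0xf1f11324), (36, 0xf1f11342), (18, 0xf1f11423), (-36, 0xf1213f14), (36, 0xf121f143), (-30, 0xf12f1134)
   , (-36, 0xf12f1143), (-36, 0xf123f114), (-30, 0xf1234f11), (-24, 0xf123f141), (24, 0xf124f113), (84, 0xf12f1413)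
   , (18, 0xf2f11134), (18, 0xf2f11143), (-54, 0xf2f11314), (66, 0xf2f11341), (6, 0xf2f11413), (84, 0xf1f12134)
   , (36, 0xf1f12143), (36, 0xf1f12314), (84, 0xf1f12341), (144, 0xf1f12413), (-12, 0xf1311f24), (-6, 0xf1312f14)
   , (-90, 0xf131f124), (-96, 0xf1314f12), (-54, 0xf131f142), (12, 0xf131f241), (12, 0xf13f1124), (-30, 0xf13f1142)
   , (24, 0xf1321f14), (-36, 0xf132f114), (6, 0xf1324f11), (24, 0xf132f141), (138, 0xf13f1214), (72, 0xf13f1241)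
   , (-114, 0xf1341f12), (24, 0xf134f112), (6, 0xf13f1412), (-36, 0xf13f2411), (-12, 0xf3f11124), (-18, 0xf3f11142)
   , (18, 0xf3f11214), (-12, 0xf3f11241), (-12, 0xf3f11412), (-42, 0xf1f13124), (24, 0xf1f13142), (-18, 0xf1f13214)
   , (-72, 0xf1f13241), (-42, 0xf1f13412), (-3, 0xf1f23114), (75, 0xf1f23141), (-21, 0xf1f23411), (-48, 0xf3f12114)
   , (-24, 0xf3f12141), (36, 0xf3f12411), (48, 0xf2f13114), (-48, 0xf2f13141), (6, 0xf2f13411), (-51, 0xf1411f23)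
   , (3, 0xf141f231), (27, 0xf14f2311), (48, 0xf1f14123), (72, 0xf1f14213), (120, 0xf1f14231), (48, 0xf1f14312)
   , (66, 0xf4f11123), (30, 0xf4f11132), (6, 0xf4f11213), (-18, 0xf4f11231), (72, 0xf4f11312), (6, 0xf241f113)
   , (-54, 0xf2413f11), (-24, 0xf24f1113), (-36, 0xf24f1131), (-48, 0xf2431f11), (-12, 0xf2f14113), (84, 0xf2f14131)
   , (-12, 0xf2f14311), (-24, 0xf1f24113), (-48, 0xf1f24131), (-24, 0xf1f24311), (36, 0xf4f12113), (36, 0xf4f12131)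
   , (36, 0xf4f12311), (-48, 0xf3411f12), (-6, 0xf341f112), (36, 0xf3412f11), (48, 0xf341f121), (42, 0xf34f1112)
   , (66, 0xf34f1121), (66, 0xf3421f11), (36, 0xf34f1211), (48, 0xf3f14112), (-48, 0xf3f14121), (-24, 0xf3f14211)
   , (-30, 0xf1f34112), (30, 0xf1f34121), (-66, 0xf1f34211), (-36, 0xf4f13112), (36, 0xf4f13121), (12, 0xf4f13211)
   , (-45, 0xf4f23111), (-78, 0xf2f34111), (60, 0xf3f24111), (72, 0xf111243), (18, 0xf111423), (18, 0xf112143)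
   , (42, 0xf112413), (-6, 0xf114123), (-24, 0xf121143), (-36, 0xf121413), (-60, 0xf124113), (54, 0xf141123)
   , (18, 0xf141213), (-54, 0xf142113), (-18, 0xf241113), (-48, 0xf112341), (-18, 0xf112431), (30, 0xf113421)
   , (12, 0xf114231), (84, 0xf121341), (36, 0xf121431), (84, 0xf124131), (6, 0xf131241), (-18, 0xf131421)
   , (48, 0xf132141), (-42, 0xf134121), (42, 0xf231141), (18, 0xf234111), (-72, 0xf141231), (72, 0xf141321)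
   , (-72, 0xf142131), (36, 0xf341121), (36, 0xf342111), (-12, 0xf111324), (36, 0xf112134), (-30, 0xf131124)
   , (-30, 0xf132114), (-36, 0x411213), (36, 0x421113), (-36, 0x411231), (36, 0x412131), (36, 0x421131)
   , (-36, 0x411132), (72, 0x311214)]

set_option maxRecDepth 100000 in
theorem ok : check P cert 1 target = true := by decide +kernel

end Pool.Agent.MAL.Cert.C5
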