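import Pool.Agent.MAL.CertCore

/-! certificate C6 (generated) -/

namespace Pool.Agent.MAL.Cert.C6

open Pool.Agent.MAL.Cert

/-- parities -/
def P : ℕ → Bool := fun i => Nat.beq i 1

/-- the identity -/
def target : List (ℤ × Tr) :=
  [(-15, (.nd (.nd (.nd (.nd (.nd (.lf 2) (.lf 3)) (.lf 1)) (.lf 1)) (.lf 4)) (.lf 1))),
   (-9, (.nd (.nd (.nd (.nd (.lf 2) (.lf 3)) (.lf 1)) (.lf 1)) (.nd (.lf 4) (.lf 1)))),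
   (-9, (.nd (.nd (.nd (.lf 2) (.lf 3)) (.nd (.lf 4) (.lf 1))) (.nd (.lf 1) (.lf 1)))),
   (9, (.nd (.nd (.nd (.lf 4) (.nd (.lf 2) (.lf 3))) (.nd (.lf 1) (.lf 1))) (.lf 1))),
   (-3, (.nd (.nd (.nd (.nd (.lf 4) (.nd (.lf 2) (.lf 3))) (.lf 1)) (.lf 1)) (.lf 1))),
   (-3, (.nd (.nd (.nd (.lf 2) (.lf 3)) (.lf 1)) (.nd (.nd (.lf 4) (.lf 1)) (.lf 1)))),
   (3, (.nd (.nd (.nd (.lf 2) (.lf 3)) (.nd (.nd (.lf 4) (.lf 1)) (.lf 1))) (.lf 1))),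
   (15, (.nd (.nd (.nd (.nd (.lf 1) (.nd (.lf 2) (.lf 3))) (.lf 1)) (.lf 4)) (.lf 1))),
   (9, (.nd (.nd (.nd (.lf 1) (.nd (.lf 2) (.lf 3))) (.lf 1)) (.nd (.lf 4) (.lf 1)))),
   (9, (.nd (.nd (.lf 1) (.nd (.lf 4) (.nd (.lf 2) (.lf 3)))) (.nd (.lf 1) (.lf 1)))),
   (-9, (.nd (.nd (.nd (.lf 4) (.lf 1)) (.nd (.nd (.lf 2) (.lf 3)) (.lf 1))) (.lf 1))),
   (3, (.nd (.nd (.nd (.nd (.lf 4) (.lf 1)) (.nd (.lf 2) (.lf 3))) (.lf 1)) (.lf 1))),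
   (3, (.nd (.nd (.lf 1) (.nd (.lf 2) (.lf 3))) (.nd (.nd (.lf 4) (.lf 1)) (.lf 1)))),
   (-3, (.nd (.nd (.lf 1) (.nd (.nd (.lf 4) (.nd (.lf 2) (.lf 3))) (.lf 1))) (.lf 1))),
   (-15, (.nd (.nd (.nd (.nd (.lf 1) (.lf 1)) (.nd (.lf 2) (.lf 3))) (.lf 4)) (.lf 1))),
   (-9, (.nd (.nd (.nd (.lf 1) (.lf 1)) (.nd (.lf 2) (.lf 3))) (.nd (.lf 4) (.lf 1)))),
   (-9, (.nd (.nd (.lf 1) (.nd (.lf 4) (.lf 1))) (.nd (.nd (.lf 2) (.lf 3)) (.lf 1)))),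
   (9, (.nd (.nd (.nd (.lf 4) (.lf 1)) (.nd (.lf 1) (.nd (.lf 2) (.lf 3)))) (.lf 1))),
   (-3, (.nd (.nd (.nd (.nd (.lf 4) (.lf 1)) (.lf 1)) (.nd (.lf 2) (.lf 3))) (.lf 1))),
   (-3, (.nd (.nd (.lf 1) (.lf 1)) (.nd (.nd (.lf 4) (.nd (.lf 2) (.lf 3))) (.lf 1)))),
   (3, (.nd (.nd (.lf 1) (.nd (.nd (.lf 4) (.lf 1)) (.nd (.lf 2) (.lf 3)))) (.lf 1))),
   (-39, (.nd (.nd (.nd (.nd (.lf 1) (.lf 1)) (.lf 1)) (.lf 4)) (.nd (.lf 2) (.lf 3)))),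
   (9, (.nd (.nd (.nd (.lf 1) (.lf 1)) (.lf 1)) (.nd (.lf 4) (.nd (.lf 2) (.lf 3))))),
   (9, (.nd (.nd (.lf 1) (.nd (.lf 4) (.lf 1))) (.nd (.lf 1) (.nd (.lf 2) (.lf 3))))),
   (-9, (.nd (.nd (.nd (.lf 4) (.lf 1)) (.nd (.lf 1) (.lf 1))) (.nd (.lf 2) (.lf 3)))),
   (3, (.nd (.nd (.nd (.nd (.lf 4) (.lf 1)) (.lf 1)) (.lf 1)) (.nd (.lf 2) (.lf 3)))),
   (3, (.nd (.nd (.lf 1) (.lf 1)) (.nd (.nd (.lf 4) (.lf 1)) (.nd (.lf 2) (.lf 3))))),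
   (-3, (.nd (.nd (.lf 1) (.nd (.nd (.lf 4) (.lf 1)) (.lf 1))) (.nd (.lf 2) (.lf 3)))),
   (54, (.nd (.nd (.nd (.nd (.lf 1) (.lf 1)) (.lf 1)) (.lf 2)) (.nd (.lf 3) (.lf 4)))),
   (18, (.nd (.nd (.nd (.nd (.nd (.lf 1) (.lf 1)) (.lf 1)) (.lf 2)) (.lf 3)) (.lf 4))),
   (18, (.nd (.nd (.lf 3) (.lf 4)) (.nd (.nd (.nd (.lf 1) (.lf 1)) (.lf 1)) (.lf 2)))),
   (15, (.nd (.nd (.lf 4) (.nd (.nd (.nd (.lf 1) (.lf 1)) (.lf 1)) (.lf 2))) (.lf 3))),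
   (-18, (.nd (.nd (.nd (.nd (.nd (.lf 1) (.lf 1)) (.lf 1)) (.lf 4)) (.lf 2)) (.lf 3))),
   (-18, (.nd (.nd (.lf 2) (.lf 3)) (.nd (.nd (.nd (.lf 1) (.lf 1)) (.lf 1)) (.lf 4)))),
   (-18, (.nd (.nd (.lf 3) (.nd (.nd (.nd (.lf 1) (.lf 1)) (.lf 1)) (.lf 4))) (.lf 2))),
   (54, (.nd (.nd (.nd (.nd (.lf 1) (.lf 1)) (.lf 1)) (.lf 3)) (.nd (.lf 4) (.lf 2)))),
   (18, (.nd (.nd (.nd (.nd (.nd (.lf 1) (.lf 1)) (.lf 1)) (.lf 3)) (.lf 4)) (.lf 2))),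
   (21, (.nd (.nd (.lf 4) (.lf 2)) (.nd (.nd (.nd (.lf 1) (.lf 1)) (.lf 1)) (.lf 3)))),
   (18, (.nd (.nd (.lf 2) (.nd (.nd (.nd (.lf 1) (.lf 1)) (.lf 1)) (.lf 3))) (.lf 4))),
   (-3, (.nd (.nd (.lf 4) (.lf 2)) (.nd (.nd (.nd (.lf 3) (.lf 1)) (.lf 1)) (.lf 1)))),
   (-3, (.nd (.nd (.lf 4) (.nd (.nd (.nd (.lf 2) (.lf 3)) (.lf 1)) (.lf 1))) (.lf 1))),
   (3, (.nd (.nd (.lf 4) (.lf 2)) (.nd (.nd (.nd (.lf 1) (.lf 3)) (.lf 1)) (.lf 1)))),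
   (3, (.nd (.nd (.lf 4) (.nd (.nd (.nd (.lf 2) (.lf 1)) (.lf 3)) (.lf 1))) (.lf 1))),
   (-3, (.nd (.nd (.lf 4) (.lf 2)) (.nd (.nd (.nd (.lf 1) (.lf 1)) (.lf 3)) (.lf 1)))),
   (-3, (.nd (.nd (.lf 4) (.nd (.nd (.nd (.lf 2) (.lf 1)) (.lf 1)) (.lf 3))) (.lf 1))),
   (3, (.nd (.nd (.lf 4) (.nd (.nd (.nd (.lf 2) (.lf 1)) (.lf 1)) (.lf 1))) (.lf 3))),
   (3, (.nd (.nd (.lf 4) (.lf 3)) (.nd (.nd (.nd (.lf 2) (.lf 1)) (.lf 1)) (.lf 1)))),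
   (3, (.nd (.nd (.lf 4) (.nd (.nd (.nd (.lf 3) (.lf 2)) (.lf 1)) (.lf 1))) (.lf 1))),
   (-3, (.nd (.nd (.lf 4) (.lf 3)) (.nd (.nd (.nd (.lf 1) (.lf 2)) (.lf 1)) (.lf 1)))),
   (-3, (.nd (.nd (.lf 4) (.nd (.nd (.nd (.lf 3) (.lf 1)) (.lf 2)) (.lf 1))) (.lf 1))),
   (3, (.nd (.nd (.lf 4) (.lf 3)) (.nd (.nd (.nd (.lf 1) (.lf 1)) (.lf 2)) (.lf 1)))),
   (3, (.nd (.nd (.lf 4) (.nd (.nd (.nd (.lf 3) (.lf 1)) (.lf 1)) (.lf 2))) (.lf 1))),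
   (-3, (.nd (.nd (.lf 4) (.lf 3)) (.nd (.nd (.nd (.lf 1) (.lf 1)) (.lf 1)) (.lf 2)))),
   (-3, (.nd (.nd (.lf 4) (.nd (.nd (.nd (.lf 3) (.lf 1)) (.lf 1)) (.lf 1))) (.lf 2))),
   (-3, (.nd (.nd (.lf 4) (.lf 1)) (.nd (.nd (.nd (.lf 2) (.lf 3)) (.lf 1)) (.lf 1)))),
   (-3, (.nd (.nd (.lf 4) (.nd (.nd (.nd (.lf 1) (.lf 2)) (.lf 3)) (.lf 1))) (.lf 1))),
   (3, (.nd (.nd (.lf 4) (.lf 1)) (.nd (.nd (.nd (.lf 2) (.lf 1)) (.lf 3)) (.lf 1)))),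
   (3, (.nd (.nd (.lf 4) (.nd (.nd (.nd (.lf 1) (.lf 2)) (.lf 1)) (.lf 3))) (.lf 1))),
   (-3, (.nd (.nd (.lf 4) (.lf 1)) (.nd (.nd (.nd (.lf 2) (.lf 1)) (.lf 1)) (.lf 3)))),
   (-3, (.nd (.nd (.lf 4) (.nd (.nd (.nd (.lf 1) (.lf 2)) (.lf 1)) (.lf 1))) (.lf 3))),
   (3, (.nd (.nd (.lf 4) (.lf 1)) (.nd (.nd (.nd (.lf 3) (.lf 2)) (.lf 1)) (.lf 1)))),
   (3, (.nd (.nd (.lf 4) (.nd (.nd (.nd (.lf 1) (.lf 3)) (.lf 2)) (.lf 1))) (.lf 1))),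
   (-3, (.nd (.nd (.lf 4) (.lf 1)) (.nd (.nd (.nd (.lf 3) (.lf 1)) (.lf 2)) (.lf 1)))),
   (-3, (.nd (.nd (.lf 4) (.nd (.nd (.nd (.lf 1) (.lf 3)) (.lf 1)) (.lf 2))) (.lf 1))),
   (3, (.nd (.nd (.lf 4) (.lf 1)) (.nd (.nd (.nd (.lf 3) (.lf 1)) (.lf 1)) (.lf 2)))),
   (3, (.nd (.nd (.lf 4) (.nd (.nd (.nd (.lf 1) (.lf 3)) (.lf 1)) (.lf 1))) (.lf 2))),
   (-3, (.nd (.nd (.lf 4) (.lf 1)) (.nd (.nd (.nd (.lf 1) (.lf 2)) (.lf 3)) (.lf 1)))),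
   (-3, (.nd (.nd (.lf 4) (.nd (.nd (.nd (.lf 1) (.lf 1)) (.lf 2)) (.lf 3))) (.lf 1))),
   (3, (.nd (.nd (.lf 4) (.lf 1)) (.nd (.nd (.nd (.lf 1) (.lf 2)) (.lf 1)) (.lf 3)))),
   (3, (.nd (.nd (.lf 4) (.nd (.nd (.nd (.lf 1) (.lf 1)) (.lf 2)) (.lf 1))) (.lf 3))),
   (3, (.nd (.nd (.lf 4) (.lf 1)) (.nd (.nd (.nd (.lf 1) (.lf 3)) (.lf 2)) (.lf 1)))),
   (3, (.nd (.nd (.lf 4) (.nd (.nd (.nd (.lf 1) (.lf 1)) (.lf 3)) (.lf 2))) (.lf 1))),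
   (-3, (.nd (.nd (.lf 4) (.lf 1)) (.nd (.nd (.nd (.lf 1) (.lf 3)) (.lf 1)) (.lf 2)))),
   (-3, (.nd (.nd (.lf 4) (.nd (.nd (.nd (.lf 1) (.lf 1)) (.lf 3)) (.lf 1))) (.lf 2))),
   (-3, (.nd (.nd (.lf 4) (.lf 1)) (.nd (.nd (.nd (.lf 1) (.lf 1)) (.lf 2)) (.lf 3)))),
   (3, (.nd (.nd (.lf 4) (.lf 1)) (.nd (.nd (.nd (.lf 1) (.lf 1)) (.lf 3)) (.lf 2)))),
   (3, (.nd (.nd (.lf 4) (.nd (.nd (.nd (.lf 1) (.lf 1)) (.lf 1)) (.lf 3))) (.lf 2)))]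

/-- the certificate -/
def cert : List (ℤ × ℕ) :=
  [(12, 0xf111f234), (147, 0xf1114f23), (33, 0xf1123f14), (9, 0xf112f143), (-36, 0xf1132f14), (48, 0xf113f142)
   , (105, 0xf11f2314), (75, 0xf11f2341), (75, 0xf1141f23), (93, 0xf11f1423), (129, 0xf1f11234), (-6, 0xf1f11243)
   , (-36, 0xf1f11324), (57, 0xf1f11342), (-3, 0xf1f11423), (90, 0xf1211f34), (-36, 0xf1213f14), (-90, 0xf121f134)
   , (48, 0xf1214f13), (36, 0xf121f143), (-6, 0xf121f341), (-15, 0xf12f1134), (-6, 0xf12f1143), (-36, 0xf123f114)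
   , (-15, 0xf1234f11), (-24, 0xf123f141), (-6, 0xf12f1314), (-24, 0xf12f1341), (-18, 0xf1241f13), (9, 0xf124f113)
   , (84, 0xf12f1413), (114, 0xf12f3411), (84, 0xf1f12134), (36, 0xf1f12143), (36, 0xf1f12314), (84, 0xf1f12341)
   , (144, 0xf1f12413), (27, 0xf2f11134), (48, 0xf2f11143), (-24, 0xf2f11314), (135, 0xf2f11341), (-33, 0xf2f11413)
   , (-12, 0xf1311f24), (-6, 0xf1312f14), (-54, 0xf131f142), (12, 0xf131f241), (51, 0xf13f1124), (24, 0xf1321f14)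
   , (-36, 0xf132f114), (15, 0xf1324f11), (24, 0xf132f141), (63, 0xf134f112), (6, 0xf13f1412), (-36, 0xf13f2411)
   , (-42, 0xf1f13124), (24, 0xf1f13142), (-18, 0xf1f13214), (-72, 0xf1f13241), (-42, 0xf1f13412), (33, 0xf3f11124)
   , (12, 0xf3f11142), (78, 0xf3f11214), (33, 0xf3f11241), (33, 0xf3f11412), (-21, 0xf1f23114), (93, 0xf1f23141)
   , (-75, 0xf1f23411), (-48, 0xf3f12114), (-24, 0xf3f12141), (36, 0xf3f12411), (48, 0xf2f13114), (-48, 0xf2f13141)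
   , (6, 0xf2f13411), (-69, 0xf1411f23), (21, 0xf141f231), (-27, 0xf14f2311), (48, 0xf1f14123), (72, 0xf1f14213)
   , (120, 0xf1f14231), (48, 0xf1f14312), (63, 0xf4f11123), (-36, 0xf4f11132), (-51, 0xf4f11231), (63, 0xf4f11312)
   , (3, 0xf241f113), (-48, 0xf2413f11), (6, 0xf24f1113), (-33, 0xf24f1131), (15, 0xf2431f11), (36, 0xf4f12113)
   , (36, 0xf4f12131), (36, 0xf4f12311), (-12, 0xf2f14113), (84, 0xf2f14131), (-12, 0xf2f14311), (-24, 0xf1f24113)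
   , (-48, 0xf1f24131), (-24, 0xf1f24311), (75, 0xf341f112), (-24, 0xf3412f11), (-24, 0xf34f1112), (-21, 0xf34f1121)
   , (135, 0xf3421f11), (-36, 0xf4f13112), (36, 0xf4f13121), (12, 0xf4f13211), (48, 0xf3f14112), (-48, 0xf3f14121)
   , (-24, 0xf3f14211), (24, 0xf1f34112), (-24, 0xf1f34121), (96, 0xf1f34211), (-99, 0xf4f23111), (-12, 0xf3f24111)
   , (-60, 0xf2f34111), (60, 0xf111243), (60, 0xf111423), (114, 0xf112413), (-54, 0xf114123), (12, 0xf121143)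
   , (-72, 0xf121413), (48, 0xf124113), (90, 0xf141123), (-18, 0xf141213), (54, 0xf142113), (54, 0xf241113)
   , (-72, 0xf112341), (12, 0xf112431), (84, 0xf113421), (6, 0xf114231), (84, 0xf121341), (36, 0xf121431)
   , (84, 0xf124131), (6, 0xf131241), (-18, 0xf131421), (48, 0xf132141), (-42, 0xf134121), (78, 0xf231141)
   , (54, 0xf234111), (-72, 0xf141231), (72, 0xf141321), (-72, 0xf142131), (-72, 0xf341121), (-72, 0xf342111)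
   , (-42, 0xf111324), (66, 0xf112134), (-30, 0xf131124), (-30, 0xf132114), (-108, 0x411213), (-36, 0x421113)
   , (-36, 0x411231), (36, 0x412131), (36, 0x421131), (36, 0x411132), (72, 0x311214)]

set_option maxRecDepth 100000 in
theorem ok : check P cert 4 target = true := by decide +kernel

end Pool.Agent.MAL.Cert.C6
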