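import Pool.Agent.MAL.CertCore

/-! certificate I4 (generated) -/

namespace Pool.Agent.MAL.Cert.I4

open Pool.Agent.MAL.Cert

/-- parities -/
def P : ℕ → Bool := fun i => Nat.beq i 1

/-- the identity -/
def target : List (ℤ × Tr × List (Fin 5 × Fin 5)) :=
  [(90, (.nd (.nd (.nd (.nd (.lf 1) (.lf 1)) (.lf 1)) (.lf 2)) (.nd (.lf 1) (.lf 1))), []),
   (54, (.nd (.nd (.nd (.lf 1) (.lf 1)) (.lf 1)) (.nd (.lf 2) (.nd (.lf 1) (.lf 1)))), []),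
   (54, (.nd (.nd (.lf 1) (.nd (.lf 2) (.lf 1))) (.nd (.lf 1) (.nd (.lf 1) (.lf 1)))), []),
   (-54, (.nd (.nd (.nd (.lf 2) (.lf 1)) (.nd (.lf 1) (.lf 1))) (.nd (.lf 1) (.lf 1))), []),
   (18, (.nd (.nd (.nd (.nd (.lf 2) (.lf 1)) (.lf 1)) (.lf 1)) (.nd (.lf 1) (.lf 1))), []),
   (18, (.nd (.nd (.lf 1) (.lf 1)) (.nd (.nd (.lf 2) (.lf 1)) (.nd (.lf 1) (.lf 1)))), []),
   (-18, (.nd (.nd (.lf 1) (.nd (.nd (.lf 2) (.lf 1)) (.lf 1))) (.nd (.lf 1) (.lf 1))), []),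
   (-90, (.nd (.nd (.nd (.nd (.lf 1) (.lf 1)) (.nd (.lf 1) (.lf 1))) (.lf 2)) (.lf 1)), [(2, 3), (3, 4)]),
   (-54, (.nd (.nd (.nd (.lf 1) (.lf 1)) (.nd (.lf 1) (.lf 1))) (.nd (.lf 2) (.lf 1))), [(2, 3), (3, 4)]),
   (-54, (.nd (.nd (.lf 1) (.nd (.lf 2) (.lf 1))) (.nd (.nd (.lf 1) (.lf 1)) (.lf 1))), [(2, 3), (3, 4)]),
   (54, (.nd (.nd (.nd (.lf 2) (.lf 1)) (.nd (.lf 1) (.nd (.lf 1) (.lf 1)))) (.lf 1)), [(2, 3), (3, 4)]),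
   (-18, (.nd (.nd (.nd (.nd (.lf 2) (.lf 1)) (.lf 1)) (.nd (.lf 1) (.lf 1))) (.lf 1)), [(2, 3), (3, 4)]),
   (-18, (.nd (.nd (.lf 1) (.lf 1)) (.nd (.nd (.lf 2) (.nd (.lf 1) (.lf 1))) (.lf 1))), [(2, 3), (3, 4)]),
   (18, (.nd (.nd (.lf 1) (.nd (.nd (.lf 2) (.lf 1)) (.nd (.lf 1) (.lf 1)))) (.lf 1)), [(2, 3), (3, 4)]),
   (90, (.nd (.nd (.nd (.nd (.lf 1) (.nd (.lf 1) (.lf 1))) (.lf 1)) (.lf 2)) (.lf 1)), [(1, 3), (2, 4)]),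
   (54, (.nd (.nd (.nd (.lf 1) (.nd (.lf 1) (.lf 1))) (.lf 1)) (.nd (.lf 2) (.lf 1))), [(1, 3), (2, 4)]),
   (54, (.nd (.nd (.lf 1) (.nd (.lf 2) (.nd (.lf 1) (.lf 1)))) (.nd (.lf 1) (.lf 1))), [(1, 3), (2, 4)]),
   (-54, (.nd (.nd (.nd (.lf 2) (.lf 1)) (.nd (.nd (.lf 1) (.lf 1)) (.lf 1))) (.lf 1)), [(1, 3), (2, 4)]),
   (18, (.nd (.nd (.nd (.nd (.lf 2) (.lf 1)) (.nd (.lf 1) (.lf 1))) (.lf 1)) (.lf 1)), [(1, 3), (2, 4)]),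
   (18, (.nd (.nd (.lf 1) (.nd (.lf 1) (.lf 1))) (.nd (.nd (.lf 2) (.lf 1)) (.lf 1))), [(1, 3), (2, 4)]),
   (-18, (.nd (.nd (.lf 1) (.nd (.nd (.lf 2) (.nd (.lf 1) (.lf 1))) (.lf 1))) (.lf 1)), [(1, 3), (2, 4)]),
   (-90, (.nd (.nd (.nd (.nd (.nd (.lf 1) (.lf 1)) (.lf 1)) (.lf 1)) (.lf 2)) (.lf 1)), [(0, 3), (1, 4), (2, 3), (3, 4)]),
   (-54, (.nd (.nd (.nd (.nd (.lf 1) (.lf 1)) (.lf 1)) (.lf 1)) (.nd (.lf 2) (.lf 1))), [(0, 3), (1, 4), (2, 3), (3, 4)]),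
   (-54, (.nd (.nd (.nd (.lf 1) (.lf 1)) (.nd (.lf 2) (.lf 1))) (.nd (.lf 1) (.lf 1))), [(0, 3), (1, 4), (2, 3), (3, 4)]),
   (54, (.nd (.nd (.nd (.lf 2) (.nd (.lf 1) (.lf 1))) (.nd (.lf 1) (.lf 1))) (.lf 1)), [(0, 3), (1, 4), (2, 3), (3, 4)]),
   (-18, (.nd (.nd (.nd (.nd (.lf 2) (.nd (.lf 1) (.lf 1))) (.lf 1)) (.lf 1)) (.lf 1)), [(0, 3), (1, 4), (2, 3), (3, 4)]),
   (-18, (.nd (.nd (.nd (.lf 1) (.lf 1)) (.lf 1)) (.nd (.nd (.lf 2) (.lf 1)) (.lf 1))), [(0, 3), (1, 4), (2, 3), (3, 4)]),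
   (18, (.nd (.nd (.nd (.lf 1) (.lf 1)) (.nd (.nd (.lf 2) (.lf 1)) (.lf 1))) (.lf 1)), [(0, 3), (1, 4), (2, 3), (3, 4)]),
   (-144, (.nd (.nd (.lf 2) (.lf 1)) (.nd (.nd (.nd (.lf 1) (.lf 1)) (.lf 1)) (.lf 1))), []),
   (-144, (.nd (.nd (.lf 2) (.nd (.nd (.nd (.lf 1) (.lf 1)) (.lf 1)) (.lf 1))) (.lf 1)), [])]

/-- the certificate -/
def cert : List (ℤ × ℕ) :=
  [(-63, 0xf111f112), (-18, 0xf1112f11), (45, 0xf1f11112), (-45, 0xf1f11121), (45, 0xf1f11211), (9, 0xf1211f11)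
   , (-45, 0xf121f111), (81, 0xf12f1111), (-27, 0xf2f11111), (72, 0xf1f12111), (54, 0xf111112), (-36, 0xf111121)
   ]

set_option maxRecDepth 100000 in
theorem ok : check P cert 1
    (target.map fun e => ((-1) ^ e.2.2.length * e.1, e.2.1)) = true := by decide +kernel

end Pool.Agent.MAL.Cert.I4
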