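import Pool.Agent.MAL.CertCore

/-! certificate I5 (generated) -/

namespace Pool.Agent.MAL.Cert.I5

open Pool.Agent.MAL.Cert

/-- parities -/
def P : ℕ → Bool := fun i => Nat.beq i 1

/-- the identity -/
def target : List (ℤ × Tr × List (Fin 4 × Fin 4)) :=
  [(3, (.nd (.nd (.lf 1) (.lf 1)) (.nd (.lf 1) (.lf 1))), []),
   (3, (.nd (.nd (.lf 1) (.nd (.lf 1) (.lf 1))) (.lf 1)), [(0, 1), (1, 2), (2, 3)]),
   (3, (.nd (.nd (.nd (.lf 1) (.lf 1)) (.lf 1)) (.lf 1)), [(0, 2), (1, 3)]),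
   (-2, (.nd (.nd (.nd (.lf 1) (.lf 1)) (.lf 1)) (.lf 1)), []),
   (-2, (.nd (.nd (.nd (.lf 1) (.lf 1)) (.lf 1)) (.lf 1)), [(0, 1), (1, 2)]),
   (-2, (.nd (.nd (.nd (.lf 1) (.lf 1)) (.lf 1)) (.lf 1)), [(0, 2), (1, 2)])]

/-- the certificate -/
def cert : List (ℤ × ℕ) :=
  []

set_option maxRecDepth 100000 in
theorem ok : check P cert 1
    (target.map fun e => ((-1) ^ e.2.2.length * e.1, e.2.1)) = true := by decide +kernel

end Pool.Agent.MAL.Cert.I5
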