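import Pool.Agent.MAL.CertCore

/-! certificate I8 (generated) -/

namespace Pool.Agent.MAL.Cert.I8

open Pool.Agent.MAL.Cert

/-- parities -/
def P : ℕ → Bool := fun i => Nat.beq i 1

/-- the identity -/
def target : List (ℤ × Tr × List (Fin 6 × Fin 6)) :=
  [(312, (.nd (.nd (.lf 1) (.lf 1)) (.nd (.nd (.nd (.lf 1) (.lf 1)) (.lf 1)) (.lf 1))), []),
   (24, (.nd (.nd (.lf 1) (.lf 1)) (.nd (.nd (.nd (.lf 1) (.lf 1)) (.lf 1)) (.lf 1))), [(2, 3), (3, 4)]),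
   (24, (.nd (.nd (.lf 1) (.lf 1)) (.nd (.nd (.nd (.lf 1) (.lf 1)) (.lf 1)) (.lf 1))), [(2, 4), (3, 4)]),
   (24, (.nd (.nd (.lf 1) (.nd (.nd (.nd (.lf 1) (.lf 1)) (.lf 1)) (.lf 1))) (.lf 1)), [(0, 1), (1, 2), (2, 3), (3, 4), (4, 5)]),
   (24, (.nd (.nd (.lf 1) (.nd (.nd (.nd (.lf 1) (.lf 1)) (.lf 1)) (.lf 1))) (.lf 1)), [(0, 1), (1, 3), (2, 4), (3, 4), (4, 5)]),
   (24, (.nd (.nd (.lf 1) (.nd (.nd (.nd (.lf 1) (.lf 1)) (.lf 1)) (.lf 1))) (.lf 1)), [(0, 1), (1, 4), (4, 5)]),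
   (24, (.nd (.nd (.nd (.nd (.nd (.lf 1) (.lf 1)) (.lf 1)) (.lf 1)) (.lf 1)) (.lf 1)), [(0, 2), (1, 3), (2, 4), (3, 5)]),
   (24, (.nd (.nd (.nd (.nd (.nd (.lf 1) (.lf 1)) (.lf 1)) (.lf 1)) (.lf 1)) (.lf 1)), [(0, 3), (1, 4), (3, 5), (4, 5)]),
   (24, (.nd (.nd (.nd (.nd (.nd (.lf 1) (.lf 1)) (.lf 1)) (.lf 1)) (.lf 1)) (.lf 1)), [(0, 4), (1, 2), (2, 3), (3, 5)]),
   (360, (.nd (.nd (.nd (.nd (.lf 1) (.lf 1)) (.lf 1)) (.nd (.lf 1) (.lf 1))) (.lf 1)), [(3, 4), (4, 5)]),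
   (216, (.nd (.nd (.nd (.lf 1) (.lf 1)) (.lf 1)) (.nd (.nd (.lf 1) (.lf 1)) (.lf 1))), [(3, 4), (4, 5)]),
   (216, (.nd (.nd (.lf 1) (.nd (.nd (.lf 1) (.lf 1)) (.lf 1))) (.nd (.lf 1) (.lf 1))), [(1, 4), (2, 5), (3, 4), (4, 5)]),
   (-216, (.nd (.nd (.nd (.nd (.lf 1) (.lf 1)) (.lf 1)) (.nd (.lf 1) (.lf 1))) (.lf 1)), [(0, 4), (1, 5), (2, 4), (3, 5)]),
   (72, (.nd (.nd (.nd (.nd (.nd (.lf 1) (.lf 1)) (.lf 1)) (.lf 1)) (.lf 1)) (.lf 1)), [(0, 4), (1, 5), (2, 4), (3, 5)]),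
   (72, (.nd (.nd (.lf 1) (.lf 1)) (.nd (.nd (.nd (.lf 1) (.lf 1)) (.lf 1)) (.lf 1))), [(2, 4), (3, 5)]),
   (-72, (.nd (.nd (.lf 1) (.nd (.nd (.nd (.lf 1) (.lf 1)) (.lf 1)) (.lf 1))) (.lf 1)), [(1, 4), (2, 5), (3, 4), (4, 5)]),
   (288, (.nd (.nd (.lf 1) (.nd (.nd (.nd (.lf 1) (.lf 1)) (.lf 1)) (.lf 1))) (.lf 1)), [])]

/-- the certificate -/
def cert : List (ℤ × ℕ) :=
  [(-36, 0xf1111f11), (-180, 0xf1f11111)]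

set_option maxRecDepth 100000 in
theorem ok : check P cert 1
    (target.map fun e => ((-1) ^ e.2.2.length * e.1, e.2.1)) = true := by decide +kernel

end Pool.Agent.MAL.Cert.I8
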