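import Pool.Agent.MAL.CertCore

/-! certificate R6 (generated) -/

namespace Pool.Agent.MAL.Cert.R6

open Pool.Agent.MAL.Cert

/-- parities -/
def P : ℕ → Bool := fun i => Nat.beq i 1

/-- the identity -/
def target : List (ℤ × Tr × List (Fin 5 × Fin 5)) :=
  [(1080, (.nd (.nd (.nd (.nd (.nd (.lf 1) (.lf 1)) (.lf 1)) (.lf 1)) (.lf 1)) (.lf 2)), [(3, 4)]),
   (648, (.nd (.nd (.nd (.nd (.lf 1) (.lf 1)) (.lf 1)) (.nd (.lf 1) (.lf 1))) (.lf 2)), [(3, 4)]),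
   (648, (.nd (.nd (.nd (.lf 1) (.nd (.lf 1) (.lf 1))) (.nd (.lf 1) (.lf 1))) (.lf 2)), [(1, 4), (2, 4), (3, 4)]),
   (-648, (.nd (.nd (.nd (.nd (.lf 1) (.lf 1)) (.nd (.lf 1) (.lf 1))) (.lf 1)) (.lf 2)), [(0, 4), (1, 4), (2, 4), (3, 4)]),
   (216, (.nd (.nd (.nd (.nd (.nd (.lf 1) (.lf 1)) (.lf 1)) (.lf 1)) (.lf 1)) (.lf 2)), [(0, 4), (1, 4), (2, 4), (3, 4)]),
   (216, (.nd (.nd (.nd (.lf 1) (.lf 1)) (.nd (.nd (.lf 1) (.lf 1)) (.lf 1))) (.lf 2)), [(2, 4), (3, 4)]),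
   (-216, (.nd (.nd (.nd (.lf 1) (.nd (.nd (.lf 1) (.lf 1)) (.lf 1))) (.lf 1)) (.lf 2)), [(1, 4), (2, 4), (3, 4)]),
   (180, (.nd (.nd (.nd (.nd (.lf 2) (.lf 1)) (.lf 1)) (.nd (.lf 1) (.lf 1))) (.lf 1)), [(2, 3), (3, 4)]),
   (108, (.nd (.nd (.nd (.lf 2) (.lf 1)) (.lf 1)) (.nd (.nd (.lf 1) (.lf 1)) (.lf 1))), [(2, 3), (3, 4)]),
   (108, (.nd (.nd (.lf 2) (.nd (.nd (.lf 1) (.lf 1)) (.lf 1))) (.nd (.lf 1) (.lf 1))), [(0, 3), (1, 4), (2, 3), (3, 4)]),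
   (-108, (.nd (.nd (.nd (.nd (.lf 1) (.lf 1)) (.lf 2)) (.nd (.lf 1) (.lf 1))) (.lf 1)), [(0, 3), (1, 4), (2, 3), (3, 4)]),
   (36, (.nd (.nd (.nd (.nd (.nd (.lf 1) (.lf 1)) (.lf 2)) (.lf 1)) (.lf 1)) (.lf 1)), [(0, 3), (1, 4), (2, 3), (3, 4)]),
   (36, (.nd (.nd (.lf 2) (.lf 1)) (.nd (.nd (.nd (.lf 1) (.lf 1)) (.lf 1)) (.lf 1))), [(1, 3), (2, 4)]),
   (-36, (.nd (.nd (.lf 2) (.nd (.nd (.nd (.lf 1) (.lf 1)) (.lf 1)) (.lf 1))) (.lf 1)), [(0, 3), (1, 4), (2, 3), (3, 4)]),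
   (-180, (.nd (.nd (.nd (.nd (.lf 1) (.lf 2)) (.lf 1)) (.nd (.lf 1) (.lf 1))) (.lf 1)), [(2, 3), (3, 4)]),
   (-108, (.nd (.nd (.nd (.lf 1) (.lf 2)) (.lf 1)) (.nd (.nd (.lf 1) (.lf 1)) (.lf 1))), [(2, 3), (3, 4)]),
   (-108, (.nd (.nd (.lf 1) (.nd (.nd (.lf 1) (.lf 1)) (.lf 2))) (.nd (.lf 1) (.lf 1))), [(1, 3), (2, 4)]),
   (108, (.nd (.nd (.nd (.nd (.lf 1) (.lf 1)) (.lf 1)) (.nd (.lf 2) (.lf 1))) (.lf 1)), [(0, 3), (1, 4), (2, 3), (3, 4)]),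
   (-36, (.nd (.nd (.nd (.nd (.nd (.lf 1) (.lf 1)) (.lf 1)) (.lf 2)) (.lf 1)) (.lf 1)), [(0, 3), (1, 4), (2, 3), (3, 4)]),
   (-36, (.nd (.nd (.lf 1) (.lf 2)) (.nd (.nd (.nd (.lf 1) (.lf 1)) (.lf 1)) (.lf 1))), [(1, 3), (2, 4)]),
   (36, (.nd (.nd (.lf 1) (.nd (.nd (.nd (.lf 1) (.lf 1)) (.lf 2)) (.lf 1))) (.lf 1)), [(1, 3), (2, 4)]),
   (180, (.nd (.nd (.nd (.nd (.lf 1) (.lf 1)) (.lf 2)) (.nd (.lf 1) (.lf 1))) (.lf 1)), [(2, 3), (3, 4)]),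
   (108, (.nd (.nd (.nd (.lf 1) (.lf 1)) (.lf 2)) (.nd (.nd (.lf 1) (.lf 1)) (.lf 1))), [(2, 3), (3, 4)]),
   (108, (.nd (.nd (.lf 1) (.nd (.nd (.lf 1) (.lf 1)) (.lf 1))) (.nd (.lf 2) (.lf 1))), [(1, 3), (2, 4)]),
   (-108, (.nd (.nd (.nd (.nd (.lf 1) (.lf 1)) (.lf 1)) (.nd (.lf 1) (.lf 2))) (.lf 1)), [(0, 3), (1, 4), (2, 3), (3, 4)]),
   (36, (.nd (.nd (.nd (.nd (.nd (.lf 1) (.lf 1)) (.lf 1)) (.lf 1)) (.lf 2)) (.lf 1)), [(0, 3), (1, 4), (2, 3), (3, 4)]),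
   (36, (.nd (.nd (.lf 1) (.lf 1)) (.nd (.nd (.nd (.lf 1) (.lf 1)) (.lf 2)) (.lf 1))), [(2, 3), (3, 4)]),
   (-36, (.nd (.nd (.lf 1) (.nd (.nd (.nd (.lf 1) (.lf 1)) (.lf 1)) (.lf 2))) (.lf 1)), [(1, 3), (2, 4)]),
   (-180, (.nd (.nd (.nd (.nd (.lf 1) (.lf 1)) (.lf 1)) (.nd (.lf 1) (.lf 1))) (.lf 2)), []),
   (-108, (.nd (.nd (.nd (.lf 1) (.lf 1)) (.lf 1)) (.nd (.nd (.lf 1) (.lf 1)) (.lf 2))), []),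
   (-108, (.nd (.nd (.lf 1) (.nd (.nd (.lf 1) (.lf 1)) (.lf 1))) (.nd (.lf 1) (.lf 2))), [(1, 3), (2, 4)]),
   (108, (.nd (.nd (.nd (.nd (.lf 1) (.lf 1)) (.lf 1)) (.nd (.lf 1) (.lf 1))) (.lf 2)), [(0, 3), (1, 4), (2, 3), (3, 4)]),
   (-36, (.nd (.nd (.nd (.nd (.nd (.lf 1) (.lf 1)) (.lf 1)) (.lf 1)) (.lf 1)) (.lf 2)), [(0, 3), (1, 4), (2, 3), (3, 4)]),
   (-36, (.nd (.nd (.lf 1) (.lf 1)) (.nd (.nd (.nd (.lf 1) (.lf 1)) (.lf 1)) (.lf 2))), [(2, 3), (3, 4)]),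
   (36, (.nd (.nd (.lf 1) (.nd (.nd (.nd (.lf 1) (.lf 1)) (.lf 1)) (.lf 1))) (.lf 2)), [(1, 3), (2, 4)]),
   (360, (.nd (.nd (.nd (.nd (.lf 1) (.lf 1)) (.lf 1)) (.nd (.lf 2) (.lf 1))) (.lf 1)), [(3, 4)]),
   (216, (.nd (.nd (.nd (.lf 1) (.lf 1)) (.lf 1)) (.nd (.nd (.lf 2) (.lf 1)) (.lf 1))), [(3, 4)]),
   (216, (.nd (.nd (.lf 1) (.nd (.nd (.lf 2) (.lf 1)) (.lf 1))) (.nd (.lf 1) (.lf 1))), [(1, 4), (2, 4), (3, 4)]),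
   (-216, (.nd (.nd (.nd (.nd (.lf 2) (.lf 1)) (.lf 1)) (.nd (.lf 1) (.lf 1))) (.lf 1)), [(0, 4), (1, 4), (2, 4), (3, 4)]),
   (72, (.nd (.nd (.nd (.nd (.nd (.lf 2) (.lf 1)) (.lf 1)) (.lf 1)) (.lf 1)) (.lf 1)), [(0, 4), (1, 4), (2, 4), (3, 4)]),
   (72, (.nd (.nd (.lf 1) (.lf 1)) (.nd (.nd (.nd (.lf 2) (.lf 1)) (.lf 1)) (.lf 1))), [(2, 4), (3, 4)]),
   (-72, (.nd (.nd (.lf 1) (.nd (.nd (.nd (.lf 2) (.lf 1)) (.lf 1)) (.lf 1))) (.lf 1)), [(1, 4), (2, 4), (3, 4)]),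
   (360, (.nd (.nd (.nd (.nd (.nd (.lf 2) (.lf 1)) (.lf 1)) (.lf 1)) (.lf 1)) (.lf 1)), [(0, 1), (1, 2)]),
   (216, (.nd (.nd (.nd (.nd (.lf 2) (.lf 1)) (.lf 1)) (.nd (.lf 1) (.lf 1))) (.lf 1)), [(0, 1), (1, 2)]),
   (216, (.nd (.nd (.nd (.lf 2) (.nd (.lf 1) (.lf 1))) (.nd (.lf 1) (.lf 1))) (.lf 1)), []),
   (-216, (.nd (.nd (.nd (.nd (.lf 1) (.lf 2)) (.nd (.lf 1) (.lf 1))) (.lf 1)) (.lf 1)), []),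
   (72, (.nd (.nd (.nd (.nd (.nd (.lf 1) (.lf 2)) (.lf 1)) (.lf 1)) (.lf 1)) (.lf 1)), []),
   (72, (.nd (.nd (.nd (.lf 2) (.lf 1)) (.nd (.nd (.lf 1) (.lf 1)) (.lf 1))) (.lf 1)), [(0, 1)]),
   (-72, (.nd (.nd (.nd (.lf 2) (.nd (.nd (.lf 1) (.lf 1)) (.lf 1))) (.lf 1)) (.lf 1)), []),
   (-360, (.nd (.nd (.nd (.nd (.nd (.lf 1) (.lf 2)) (.lf 1)) (.lf 1)) (.lf 1)) (.lf 1)), [(0, 1), (1, 2)]),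
   (-216, (.nd (.nd (.nd (.nd (.lf 1) (.lf 2)) (.lf 1)) (.nd (.lf 1) (.lf 1))) (.lf 1)), [(0, 1), (1, 2)]),
   (-216, (.nd (.nd (.nd (.lf 1) (.nd (.lf 1) (.lf 2))) (.nd (.lf 1) (.lf 1))) (.lf 1)), [(0, 1)]),
   (216, (.nd (.nd (.nd (.nd (.lf 1) (.lf 1)) (.nd (.lf 2) (.lf 1))) (.lf 1)) (.lf 1)), []),
   (-72, (.nd (.nd (.nd (.nd (.nd (.lf 1) (.lf 1)) (.lf 2)) (.lf 1)) (.lf 1)) (.lf 1)), []),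
   (-72, (.nd (.nd (.nd (.lf 1) (.lf 2)) (.nd (.nd (.lf 1) (.lf 1)) (.lf 1))) (.lf 1)), [(0, 1)]),
   (72, (.nd (.nd (.nd (.lf 1) (.nd (.nd (.lf 1) (.lf 2)) (.lf 1))) (.lf 1)) (.lf 1)), [(0, 1)]),
   (360, (.nd (.nd (.nd (.nd (.nd (.lf 1) (.lf 1)) (.lf 2)) (.lf 1)) (.lf 1)) (.lf 1)), [(0, 1), (1, 2)]),
   (216, (.nd (.nd (.nd (.nd (.lf 1) (.lf 1)) (.lf 2)) (.nd (.lf 1) (.lf 1))) (.lf 1)), [(0, 1), (1, 2)]),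
   (216, (.nd (.nd (.nd (.lf 1) (.nd (.lf 1) (.lf 1))) (.nd (.lf 2) (.lf 1))) (.lf 1)), [(0, 1)]),
   (-216, (.nd (.nd (.nd (.nd (.lf 1) (.lf 1)) (.nd (.lf 1) (.lf 2))) (.lf 1)) (.lf 1)), []),
   (72, (.nd (.nd (.nd (.nd (.nd (.lf 1) (.lf 1)) (.lf 1)) (.lf 2)) (.lf 1)) (.lf 1)), []),
   (72, (.nd (.nd (.nd (.lf 1) (.lf 1)) (.nd (.nd (.lf 1) (.lf 2)) (.lf 1))) (.lf 1)), [(0, 1), (1, 2)]),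
   (-72, (.nd (.nd (.nd (.lf 1) (.nd (.nd (.lf 1) (.lf 1)) (.lf 2))) (.lf 1)) (.lf 1)), [(0, 1)]),
   (-648, (.nd (.nd (.nd (.nd (.nd (.lf 1) (.lf 1)) (.lf 1)) (.lf 1)) (.lf 2)) (.lf 1)), [(0, 1), (1, 2), (2, 3)]),
   (-216, (.nd (.nd (.nd (.nd (.lf 1) (.lf 1)) (.lf 1)) (.nd (.lf 1) (.lf 2))) (.lf 1)), [(0, 1), (1, 2), (2, 3)]),
   (-216, (.nd (.nd (.nd (.lf 1) (.nd (.lf 1) (.lf 1))) (.nd (.lf 1) (.lf 2))) (.lf 1)), [(0, 1)]),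
   (216, (.nd (.nd (.nd (.nd (.lf 1) (.lf 1)) (.nd (.lf 1) (.lf 1))) (.lf 2)) (.lf 1)), []),
   (-72, (.nd (.nd (.nd (.nd (.nd (.lf 1) (.lf 1)) (.lf 1)) (.lf 1)) (.lf 2)) (.lf 1)), []),
   (-72, (.nd (.nd (.nd (.lf 1) (.lf 1)) (.nd (.nd (.lf 1) (.lf 1)) (.lf 2))) (.lf 1)), [(0, 1), (1, 2)]),
   (72, (.nd (.nd (.nd (.lf 1) (.nd (.nd (.lf 1) (.lf 1)) (.lf 1))) (.lf 2)) (.lf 1)), [(0, 1)]),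
   (-864, (.nd (.nd (.lf 2) (.nd (.nd (.nd (.lf 1) (.lf 1)) (.lf 1)) (.lf 1))) (.lf 1)), [(0, 1), (1, 2), (2, 3)]),
   (-864, (.nd (.nd (.lf 2) (.nd (.nd (.nd (.lf 1) (.lf 1)) (.lf 1)) (.lf 1))) (.lf 1)), [(0, 2), (1, 3), (2, 3)]),
   (-864, (.nd (.nd (.lf 2) (.nd (.nd (.nd (.lf 1) (.lf 1)) (.lf 1)) (.lf 1))) (.lf 1)), [(0, 3)]),
   (-288, (.nd (.nd (.nd (.lf 2) (.nd (.nd (.lf 1) (.lf 1)) (.lf 1))) (.lf 1)) (.lf 1)), [(0, 1), (1, 2), (2, 3)]),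
   (-288, (.nd (.nd (.nd (.lf 2) (.nd (.nd (.lf 1) (.lf 1)) (.lf 1))) (.lf 1)) (.lf 1)), [(0, 2), (1, 3), (2, 3)]),
   (-288, (.nd (.nd (.nd (.lf 2) (.nd (.nd (.lf 1) (.lf 1)) (.lf 1))) (.lf 1)) (.lf 1)), [(0, 3)]),
   (-288, (.nd (.nd (.nd (.nd (.nd (.lf 1) (.lf 1)) (.lf 1)) (.lf 1)) (.lf 2)) (.lf 1)), [(0, 2), (1, 3), (2, 3)]),
   (-288, (.nd (.nd (.nd (.nd (.nd (.lf 1) (.lf 1)) (.lf 1)) (.lf 1)) (.lf 2)) (.lf 1)), [(0, 3)]),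
   (-288, (.nd (.nd (.nd (.lf 1) (.lf 2)) (.nd (.nd (.lf 1) (.lf 1)) (.lf 1))) (.lf 1)), []),
   (-288, (.nd (.nd (.nd (.lf 1) (.lf 2)) (.nd (.nd (.lf 1) (.lf 1)) (.lf 1))) (.lf 1)), [(1, 2), (2, 3)]),
   (-288, (.nd (.nd (.nd (.lf 1) (.lf 2)) (.nd (.nd (.lf 1) (.lf 1)) (.lf 1))) (.lf 1)), [(1, 3), (2, 3)]),
   (-720, (.nd (.nd (.lf 2) (.lf 1)) (.nd (.nd (.nd (.lf 1) (.lf 1)) (.lf 1)) (.lf 1))), []),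
   (-720, (.nd (.nd (.lf 2) (.nd (.nd (.nd (.lf 1) (.lf 1)) (.lf 1)) (.lf 1))) (.lf 1)), []),
   (-360, (.nd (.nd (.lf 1) (.lf 2)) (.nd (.nd (.nd (.lf 1) (.lf 1)) (.lf 1)) (.lf 1))), []),
   (-360, (.nd (.nd (.lf 1) (.nd (.nd (.nd (.lf 2) (.lf 1)) (.lf 1)) (.lf 1))) (.lf 1)), []),
   (360, (.nd (.nd (.lf 1) (.lf 1)) (.nd (.nd (.nd (.lf 2) (.lf 1)) (.lf 1)) (.lf 1))), []),
   (360, (.nd (.nd (.lf 1) (.nd (.nd (.nd (.lf 1) (.lf 2)) (.lf 1)) (.lf 1))) (.lf 1)), []),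
   (-360, (.nd (.nd (.lf 1) (.lf 1)) (.nd (.nd (.nd (.lf 1) (.lf 2)) (.lf 1)) (.lf 1))), []),
   (-360, (.nd (.nd (.lf 1) (.nd (.nd (.nd (.lf 1) (.lf 1)) (.lf 2)) (.lf 1))) (.lf 1)), []),
   (360, (.nd (.nd (.lf 1) (.lf 1)) (.nd (.nd (.nd (.lf 1) (.lf 1)) (.lf 2)) (.lf 1))), []),
   (360, (.nd (.nd (.lf 1) (.nd (.nd (.nd (.lf 1) (.lf 1)) (.lf 1)) (.lf 2))) (.lf 1)), []),
   (-360, (.nd (.nd (.lf 1) (.lf 1)) (.nd (.nd (.nd (.lf 1) (.lf 1)) (.lf 1)) (.lf 2))), []),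
   (-360, (.nd (.nd (.lf 1) (.nd (.nd (.nd (.lf 1) (.lf 1)) (.lf 1)) (.lf 1))) (.lf 2)), [])]

/-- the certificate -/
def cert : List (ℤ × ℕ) :=
  [(-108, 0xf111f112), (216, 0xf1112f11), (-396, 0xf1f11112), (36, 0xf1f11121), (-828, 0xf1f11211), (-180, 0xf1211f11)
   , (252, 0xf121f111), (-468, 0xf12f1111), (-648, 0xf1f12111), (-396, 0xf2f11111), (-504, 0xf111112), (72, 0xf111121)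
   ]

set_option maxRecDepth 100000 in
theorem ok : check P cert 1
    (target.map fun e => ((-1) ^ e.2.2.length * e.1, e.2.1)) = true := by decide +kernel

end Pool.Agent.MAL.Cert.R6
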